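import Mathlib
open MeasureTheory ProbabilityTheory Finset Filter Topology Set
open scoped Pointwise NNReal ENNReal

namespace Pool.Agent.Helper95.Hull

/-! ### The sets -/

section Defs
variable {d : ℕ}

/-- The union of the `d` coordinate half-lines running from `x i` along the `i`-th axis towards `-∞`. -/
def halfLines (x : Fin d → ℝ) : Set (Fin d → ℝ) := {z | ∃ i, ∃ s : ℝ, s ≤ x i ∧ z = Pi.single i s}

/-- The closed convex hull of the coordinate half-lines. -/
def hullSet (x : Fin d → ℝ) : Set (Fin d → ℝ) := closure (convexHull ℝ (halfLines x))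

/-- The Effros σ-algebra on sets, generated by the events that an open set is hit. -/
@[reducible] def effros (E : Type*) [TopologicalSpace E] : MeasurableSpace (Set E) :=
  MeasurableSpace.generateFrom {S | ∃ G : Set E, IsOpen G ∧ S = {A | (A ∩ G).Nonempty}}

/-- Equality in distribution of random sets. -/
def EqLaw {E Ω Ω' : Type*} [TopologicalSpace E] [MeasurableSpace Ω] [MeasurableSpace Ω'] (μ : Measure Ω)
    (X : Ω → Set E) (ν : Measure Ω') (Y : Ω' → Set E) : Prop :=
  ∀ S : Set (Set E), MeasurableSet[effros E] S → μ (X ⁻¹' S) = ν (Y ⁻¹' S)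

/-- Convex-stability of the random set `X` on the probability space `(Ω, μ)`; the i.i.d. copies are realised on the
product space. -/
def ConvexStable {E Ω : Type*} [AddCommGroup E] [Module ℝ E] [TopologicalSpace E] [MeasurableSpace Ω]
    (μ : Measure Ω) (X : Ω → Set E) : Prop :=
  ∀ n : ℕ, 1 ≤ n → ∃ a : ℝ, 0 < a ∧ ∃ K : Set E, K.Nonempty ∧ IsCompact K ∧ Convex ℝ K ∧
    EqLaw μ (fun ω => a • X ω) (Measure.pi (fun _ : Fin n => μ))
      (fun ω => closure (convexHull ℝ (⋃ j, X (ω j))) + K)

/-- Strict convex-stability. -/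
def StrictlyConvexStable {E Ω : Type*} [AddCommGroup E] [Module ℝ E] [TopologicalSpace E] [MeasurableSpace Ω]
    (μ : Measure Ω) (X : Ω → Set E) : Prop :=
  ∀ n : ℕ, 1 ≤ n → ∃ a : ℝ, 0 < a ∧
    EqLaw μ (fun ω => a • X ω) (Measure.pi (fun _ : Fin n => μ)) (fun ω => closure (convexHull ℝ (⋃ j, X (ω j))))

/-- The part of `x` that the set sees: the positive parts of the coordinates if some coordinate is nonnegative,
and `x` itself otherwise. -/
noncomputable def red (x : Fin d → ℝ) : Fin d → ℝ :=
  open Classical in if ∃ i, 0 ≤ x i then fun i => max (x i) 0 else x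

/-- Coordinatewise maximum of `n` vectors. -/
noncomputable def mx {n : ℕ} (xs : Fin n → Fin d → ℝ) : Fin d → ℝ := fun i => ⨆ j, xs j i

/-- Support function of `hullSet x` on the positive orthant. -/
noncomputable def sup (x u : Fin d → ℝ) : ℝ := ⨆ i, x i * u i

end Defs

section Geometry
variable {d : ℕ}

theorem le_sup (x u : Fin d → ℝ) (i : Fin d) : x i * u i ≤ sup x u :=
  le_ciSup (f := fun i => x i * u i) (Set.finite_range _).bddAbove i

theorem sup_le [Nonempty (Fin d)] {x u : Fin d → ℝ} {c : ℝ} (h : ∀ i, x i * u i ≤ c) : sup x u ≤ c :=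
  ciSup_le h

theorem exists_sup_eq [Nonempty (Fin d)] (x u : Fin d → ℝ) : ∃ i, sup x u = x i * u i := by
  obtain ⟨i, hi⟩ := exists_eq_ciSup_of_finite (f := fun i => x i * u i)
  exact ⟨i, hi.symm⟩

theorem sup_le_iff [Nonempty (Fin d)] {x u : Fin d → ℝ} {c : ℝ} : sup x u ≤ c ↔ ∀ i, x i * u i ≤ c :=
  ⟨fun h i => (le_sup x u i).trans h, sup_le⟩

theorem le_mx {n : ℕ} (xs : Fin n → Fin d → ℝ) (j : Fin n) (i : Fin d) : xs j i ≤ mx xs i :=
  le_ciSup (f := fun j => xs j i) (Set.finite_range _).bddAbove j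

theorem exists_mx_eq {n : ℕ} [Nonempty (Fin n)] (xs : Fin n → Fin d → ℝ) (i : Fin d) : ∃ j, mx xs i = xs j i := by
  obtain ⟨j, hj⟩ := exists_eq_ciSup_of_finite (f := fun j => xs j i)
  exact ⟨j, hj.symm⟩

theorem convex_hullSet (x : Fin d → ℝ) : Convex ℝ (hullSet x) := (convex_convexHull ℝ _).closure

theorem isClosed_hullSet (x : Fin d → ℝ) : IsClosed (hullSet x) := isClosed_closure

theorem halfLines_subset (x : Fin d → ℝ) : halfLines x ⊆ hullSet x :=
  (subset_convexHull ℝ _).trans subset_closure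

theorem hullSet_subset {x : Fin d → ℝ} {C : Set (Fin d → ℝ)} (hC : IsClosed C) (hconv : Convex ℝ C)
    (h : halfLines x ⊆ C) : hullSet x ⊆ C :=
  closure_minimal (convexHull_min h hconv) hC

theorem halfLines_mono {x y : Fin d → ℝ} (h : ∀ i, x i ≤ y i) : halfLines x ⊆ halfLines y := by
  rintro z ⟨i, s, hs, rfl⟩
  exact ⟨i, s, hs.trans (h i), rfl⟩

theorem hullSet_mono {x y : Fin d → ℝ} (h : ∀ i, x i ≤ y i) : hullSet x ⊆ hullSet y :=
  hullSet_subset (isClosed_hullSet y) (convex_hullSet y) ((halfLines_mono h).trans (halfLines_subset y))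

theorem single_mem (x : Fin d → ℝ) (i : Fin d) {s : ℝ} (hs : s ≤ x i) : (Pi.single i s : Fin d → ℝ) ∈ hullSet x :=
  halfLines_subset x ⟨i, s, hs, rfl⟩

theorem dot_single (i : Fin d) (s : ℝ) (u : Fin d → ℝ) : ∑ l, (Pi.single i s : Fin d → ℝ) l * u l = s * u i := by
  rw [Finset.sum_eq_single i]
  · simp
  · intro l _ hl
    rw [Pi.single_eq_of_ne hl, zero_mul]
  · intro h; exact absurd (Finset.mem_univ i) h

theorem continuous_dot (u : Fin d → ℝ) : Continuous (fun z : Fin d → ℝ => ∑ l, z l * u l) := by fun_prop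

theorem dot_le_sup {x u z : Fin d → ℝ} (hu : ∀ i, 0 ≤ u i) (hz : z ∈ hullSet x) : ∑ l, z l * u l ≤ sup x u := by
  have h1 : hullSet x ⊆ {z | ∑ l, z l * u l ≤ sup x u} := by
    apply hullSet_subset
    · exact isClosed_le (continuous_dot u) continuous_const
    · intro z hz w hw a b ha hb hab
      show ∑ l, (a • z + b • w) l * u l ≤ sup x u
      have e : ∑ l, (a • z + b • w) l * u l = a * ∑ l, z l * u l + b * ∑ l, w l * u l := by
        rw [Finset.mul_sum, Finset.mul_sum, ← Finset.sum_add_distrib]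
        apply Finset.sum_congr rfl
        intro l _
        simp only [Pi.add_apply, Pi.smul_apply, smul_eq_mul]
        ring
      rw [e]
      have hz' : ∑ l, z l * u l ≤ sup x u := hz
      have hw' : ∑ l, w l * u l ≤ sup x u := hw
      have : sup x u = a * sup x u + b * sup x u := by rw [← add_mul, hab, one_mul]
      rw [this]
      exact add_le_add (mul_le_mul_of_nonneg_left hz' ha) (mul_le_mul_of_nonneg_left hw' hb)
    · rintro z ⟨i, s, hs, rfl⟩
      show ∑ l, (Pi.single i s : Fin d → ℝ) l * u l ≤ sup x u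
      rw [dot_single]
      exact (mul_le_mul_of_nonneg_right hs (hu i)).trans (le_sup x u i)
  exact h1 hz

theorem exists_dot_eq [Nonempty (Fin d)] (x u : Fin d → ℝ) : ∃ z ∈ hullSet x, ∑ l, z l * u l = sup x u := by
  obtain ⟨i, hi⟩ := exists_sup_eq x u
  exact ⟨Pi.single i (x i), single_mem x i le_rfl, by rw [dot_single, hi]⟩

/-- Homogeneity. -/
theorem smul_halfLines {a : ℝ} (ha : 0 < a) (x : Fin d → ℝ) : a • halfLines x = halfLines (a • x) := by
  ext z
  rw [Set.mem_smul_set]
  constructor
  · rintro ⟨w, ⟨i, s, hs, rfl⟩, rfl⟩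
    refine ⟨i, a * s, ?_, ?_⟩
    · exact mul_le_mul_of_nonneg_left hs ha.le
    · rw [← Pi.single_smul]; rfl
  · rintro ⟨i, s, hs, rfl⟩
    refine ⟨Pi.single i (a⁻¹ * s), ⟨i, a⁻¹ * s, ?_, rfl⟩, ?_⟩
    · rw [inv_mul_le_iff₀ ha]; exact hs
    · rw [← Pi.single_smul, smul_eq_mul, mul_inv_cancel_left₀ ha.ne']

theorem smul_hullSet {a : ℝ} (ha : 0 < a) (x : Fin d → ℝ) : a • hullSet x = hullSet (a • x) := by
  unfold hullSet
  rw [← smul_halfLines ha, convexHull_smul, closure_smul₀ a]

/-- Unions. -/
theorem hull_union {n : ℕ} [Nonempty (Fin n)] (xs : Fin n → Fin d → ℝ) :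
    closure (convexHull ℝ (⋃ j, hullSet (xs j))) = hullSet (mx xs) := by
  apply subset_antisymm
  · apply closure_minimal _ (isClosed_hullSet _)
    apply convexHull_min _ (convex_hullSet _)
    apply Set.iUnion_subset
    intro j
    exact hullSet_mono (fun i => le_mx xs j i)
  · apply hullSet_subset isClosed_closure (convex_convexHull ℝ _).closure
    rintro z ⟨i, s, hs, rfl⟩
    obtain ⟨j, hj⟩ := exists_mx_eq xs i
    apply subset_closure
    apply subset_convexHull
    rw [Set.mem_iUnion]
    exact ⟨j, single_mem (xs j) i (hj ▸ hs)⟩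

/-- The coordinate directions are directions of recession. -/
theorem recession (x : Fin d → ℝ) {z : Fin d → ℝ} (hz : z ∈ hullSet x) (l : Fin d) {t : ℝ} (ht : 0 ≤ t) :
    z - Pi.single l t ∈ hullSet x := by
  have hlim : Tendsto (fun m : ℕ => (1 - ((m : ℝ) + 1)⁻¹) • z + (((m : ℝ) + 1)⁻¹) • (Pi.single l (x l - ((m : ℝ) + 1) * t) : Fin d → ℝ))
      atTop (𝓝 (z - Pi.single l t)) := by
    have h0 : Tendsto (fun m : ℕ => ((m : ℝ) + 1)⁻¹) atTop (𝓝 0) := by
      apply tendsto_inv_atTop_zero.comp
      exact tendsto_atTop_add_const_right _ _ tendsto_natCast_atTop_atTop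
    have h1 : ∀ m : ℕ, (1 - ((m : ℝ) + 1)⁻¹) • z + (((m : ℝ) + 1)⁻¹) • (Pi.single l (x l - ((m : ℝ) + 1) * t) : Fin d → ℝ) =
        (z - Pi.single l t) + ((m : ℝ) + 1)⁻¹ • ((Pi.single l (x l) : Fin d → ℝ) - z) := by
      intro m
      have hm : ((m : ℝ) + 1) ≠ 0 := by positivity
      ext i
      by_cases hi : i = l
      · subst hi
        simp only [Pi.add_apply, Pi.smul_apply, Pi.sub_apply, Pi.single_eq_same, smul_eq_mul]
        field_simp
        ring
      · simp only [Pi.add_apply, Pi.smul_apply, Pi.sub_apply, Pi.single_eq_of_ne hi, smul_eq_mul]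
        ring
    simp_rw [h1]
    have h2 : Tendsto (fun m : ℕ => (z - Pi.single l t) + ((m : ℝ) + 1)⁻¹ • ((Pi.single l (x l) : Fin d → ℝ) - z)) atTop
        (𝓝 ((z - Pi.single l t) + (0 : ℝ) • ((Pi.single l (x l) : Fin d → ℝ) - z))) :=
      tendsto_const_nhds.add (h0.smul_const _)
    rw [zero_smul, add_zero] at h2
    exact h2
  apply (isClosed_hullSet x).mem_of_tendsto hlim
  apply Filter.Eventually.of_forall
  intro m
  have hm : (0 : ℝ) < (m : ℝ) + 1 := by positivity
  have hm1 : ((m : ℝ) + 1)⁻¹ ≤ 1 := by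
    apply inv_le_one_of_one_le₀
    have : (0 : ℝ) ≤ m := Nat.cast_nonneg m
    linarith
  apply convex_hullSet x hz
  · apply single_mem
    have : 0 ≤ ((m : ℝ) + 1) * t := by positivity
    linarith
  · linarith
  · positivity
  · ring

/-- The set depends on `x` only through `red x`. -/
theorem hullSet_red (x : Fin d → ℝ) : hullSet (red x) = hullSet x := by
  by_cases h : ∃ i, 0 ≤ x i
  · have e : red x = fun i => max (x i) 0 := by unfold red; rw [if_pos h]
    rw [e]
    apply subset_antisymm
    · apply hullSet_subset (isClosed_hullSet x) (convex_hullSet x)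
      rintro z ⟨l, s, hs, rfl⟩
      rcases le_total s (x l) with hs' | hs'
      · exact single_mem x l hs'
      · have hs0 : s ≤ 0 ∨ s ≤ x l := by
          rcases le_max_iff.mp hs with h1 | h1
          · exact Or.inr h1
          · exact Or.inl h1
        rcases hs0 with hs0 | hs0
        · obtain ⟨i, hi⟩ := h
          have h0 : (0 : Fin d → ℝ) ∈ hullSet x := by
            have := single_mem x i hi
            rwa [Pi.single_zero] at this
          have h1 := recession x h0 l (t := -s) (by linarith)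
          rw [Pi.single_neg, sub_neg_eq_add, zero_add] at h1
          exact h1
        · exact single_mem x l hs0
    · exact hullSet_mono (fun i => le_max_left _ _)
  · have e : red x = x := by unfold red; rw [if_neg h]
    rw [e]

theorem sup_red [Nonempty (Fin d)] (x : Fin d → ℝ) {u : Fin d → ℝ} (hu : ∀ i, 0 ≤ u i) : sup (red x) u = sup x u := by
  by_cases h : ∃ i, 0 ≤ x i
  · have e : red x = fun i => max (x i) 0 := by unfold red; rw [if_pos h]
    rw [e]
    obtain ⟨i, hi⟩ := h
    have h0 : 0 ≤ sup x u := (mul_nonneg hi (hu i)).trans (le_sup x u i)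
    apply le_antisymm
    · apply sup_le
      intro l
      rw [max_mul_of_nonneg _ _ (hu l), zero_mul]
      exact max_le (le_sup x u l) h0
    · apply sup_le
      intro l
      exact (mul_le_mul_of_nonneg_right (le_max_left _ _) (hu l)).trans (le_sup (fun i => max (x i) 0) u l)
  · have e : red x = x := by unfold red; rw [if_neg h]
    rw [e]

end Geometry

end Pool.Agent.Helper95.Hull
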