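import Mathlib
import Pool.Agent.Lib.Helper95.Hull.Geom
open MeasureTheory ProbabilityTheory Finset Filter Topology Set
open scoped Pointwise NNReal ENNReal

namespace Pool.Agent.Helper95.Hull

section Sum
variable {d : ℕ}

/-- The simplex spanned by the points `v i` on the axes. -/
def simplexOf (v : Fin d → ℝ) : Set (Fin d → ℝ) := convexHull ℝ (Set.range (fun i => (Pi.single i (v i) : Fin d → ℝ)))

theorem isCompact_simplexOf (v : Fin d → ℝ) : IsCompact (simplexOf v) :=
  Set.Finite.isCompact_convexHull (𝕜 := ℝ) (Set.finite_range _)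

theorem convex_simplexOf (v : Fin d → ℝ) : Convex ℝ (simplexOf v) := convex_convexHull ℝ _

theorem simplexOf_nonempty [Nonempty (Fin d)] (v : Fin d → ℝ) : (simplexOf v).Nonempty := by
  unfold simplexOf
  rw [convexHull_nonempty_iff]
  exact Set.range_nonempty _

/-- Along a ray, adding a multiple of the simplex only changes the radius. -/
theorem hullSet_add_simplex {v : Fin d → ℝ} {r l : ℝ} (hr : 0 < r) (hl : 0 ≤ l) :
    hullSet (r • v) + l • simplexOf v = hullSet ((r + l) • v) := by
  have hrl : 0 < r + l := by linarith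
  apply subset_antisymm
  · -- reduce to generators of the simplex
    have h1 : ∀ w ∈ simplexOf v, hullSet (r • v) ⊆ {z | z + l • w ∈ hullSet ((r + l) • v)} := by
      intro w hw
      have hw' : simplexOf v ⊆ {w | hullSet (r • v) ⊆ {z | z + l • w ∈ hullSet ((r + l) • v)}} := by
        apply convexHull_min
        · rintro w ⟨j, rfl⟩
          apply hullSet_subset
          · exact (isClosed_hullSet _).preimage (by fun_prop)
          · intro z hz z' hz' a b ha hb hab
            show a • z + b • z' + l • (Pi.single j (v j) : Fin d → ℝ) ∈ hullSet ((r + l) • v)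
            have e : a • z + b • z' + l • (Pi.single j (v j) : Fin d → ℝ) =
                a • (z + l • (Pi.single j (v j) : Fin d → ℝ)) + b • (z' + l • (Pi.single j (v j) : Fin d → ℝ)) := by
              have : l • (Pi.single j (v j) : Fin d → ℝ) = (a + b) • (l • (Pi.single j (v j) : Fin d → ℝ)) := by
                rw [hab, one_smul]
              conv_lhs => rw [this]
              module
            rw [e]
            exact convex_hullSet _ hz hz' ha hb hab
          · rintro z ⟨i, s, hs, rfl⟩
            show (Pi.single i s : Fin d → ℝ) + l • (Pi.single j (v j) : Fin d → ℝ) ∈ hullSet ((r + l) • v)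
            have hs' : s ≤ r * v i := hs
            -- convex combination of generators
            have h2 : (Pi.single i ((r + l) / r * s) : Fin d → ℝ) ∈ hullSet ((r + l) • v) := by
              apply single_mem
              show (r + l) / r * s ≤ (r + l) * v i
              rw [div_mul_eq_mul_div, div_le_iff₀ hr]
              nlinarith
            have h3 : (Pi.single j ((r + l) * v j) : Fin d → ℝ) ∈ hullSet ((r + l) • v) := single_mem _ _ le_rfl
            have h4 := convex_hullSet ((r + l) • v) h2 h3 (a := r / (r + l)) (b := l / (r + l))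
              (by positivity) (by positivity) (by field_simp)
            have e : (Pi.single i s : Fin d → ℝ) + l • (Pi.single j (v j) : Fin d → ℝ) =
                (r / (r + l)) • (Pi.single i ((r + l) / r * s) : Fin d → ℝ) + (l / (r + l)) • (Pi.single j ((r + l) * v j) : Fin d → ℝ) := by
              rw [← Pi.single_smul, ← Pi.single_smul, ← Pi.single_smul, smul_eq_mul, smul_eq_mul, smul_eq_mul]
              congr 2
              · field_simp
              · field_simp
            rw [e]; exact h4
        · intro w hw w' hw' a b ha hb hab z hz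
          show z + l • (a • w + b • w') ∈ hullSet ((r + l) • v)
          have e : z + l • (a • w + b • w') = a • (z + l • w) + b • (z + l • w') := by
            have : z = (a + b) • z := by rw [hab, one_smul]
            nth_rewrite 1 [this]
            module
          rw [e]
          exact convex_hullSet _ (hw hz) (hw' hz) ha hb hab
      exact hw' hw
    rintro _ ⟨z, hz, _, ⟨w, hw, rfl⟩, rfl⟩
    exact h1 w hw hz
  · apply hullSet_subset
    · exact (isClosed_hullSet _).add_right_of_isCompact ((isCompact_simplexOf v).smul l)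
    · exact (convex_hullSet _).add ((convex_simplexOf v).smul l)
    · rintro z ⟨i, s, hs, rfl⟩
      have hs' : s ≤ (r + l) * v i := hs
      refine ⟨Pi.single i (s - l * v i), ?_, l • (Pi.single i (v i) : Fin d → ℝ), ?_, ?_⟩
      · apply single_mem
        show s - l * v i ≤ r * v i
        linarith
      · exact Set.smul_mem_smul_set (subset_convexHull ℝ _ ⟨i, rfl⟩)
      · show (Pi.single i (s - l * v i) : Fin d → ℝ) + l • (Pi.single i (v i) : Fin d → ℝ) = Pi.single i s
        rw [← Pi.single_smul, ← Pi.single_add, smul_eq_mul]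
        congr 1
        ring

end Sum

section Meas
variable {d : ℕ}

theorem halfLines_shift (x : Fin d → ℝ) {δ : ℝ} (hδ : 0 ≤ δ) :
    convexHull ℝ (halfLines x) ⊆ convexHull ℝ (halfLines (fun i => x i - δ)) + Metric.closedBall 0 δ := by
  apply convexHull_min
  · rintro z ⟨i, s, hs, rfl⟩
    refine ⟨Pi.single i (s - δ), subset_convexHull ℝ _ ⟨i, s - δ, by linarith, rfl⟩, Pi.single i δ, ?_, ?_⟩
    · rw [mem_closedBall_zero_iff, pi_norm_le_iff_of_nonneg hδ]
      intro j
      by_cases hj : j = i
      · subst hj
        rw [Pi.single_eq_same, Real.norm_eq_abs, abs_of_nonneg hδ]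
      · rw [Pi.single_eq_of_ne hj, norm_zero]; exact hδ
    · show (Pi.single i (s - δ) : Fin d → ℝ) + Pi.single i δ = Pi.single i s
      rw [← Pi.single_add, sub_add_cancel]
  · exact (convex_convexHull ℝ _).add (convex_closedBall _ _)

/-- The event that an open set is hit is open. -/
theorem isOpen_hit {G : Set (Fin d → ℝ)} (hG : IsOpen G) : IsOpen {x : Fin d → ℝ | (hullSet x ∩ G).Nonempty} := by
  rw [isOpen_iff_mem_nhds]
  rintro x ⟨z, hz, hzG⟩
  obtain ⟨z', hz'G, hz'⟩ := mem_closure_iff.mp hz G hG hzG
  obtain ⟨e, he, hball⟩ := Metric.isOpen_iff.mp hG z' hz'G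
  obtain ⟨q, hq, w, hw, hqw⟩ := halfLines_shift x (half_pos he).le hz'
  have hqG : q ∈ G := by
    apply hball
    rw [Metric.mem_ball, dist_eq_norm, ← hqw]
    have : q - (q + w) = -w := by abel
    show ‖q - (q + w)‖ < e
    rw [this, norm_neg]
    have h1 := mem_closedBall_zero_iff.mp hw
    linarith
  have hopen : {x' : Fin d → ℝ | ∀ i, x i - e / 2 < x' i} ∈ 𝓝 x := by
    apply IsOpen.mem_nhds
    · have : {x' : Fin d → ℝ | ∀ i, x i - e / 2 < x' i} = ⋂ i, {x' | x i - e / 2 < x' i} := by
        ext x'; simp
      rw [this]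
      exact isOpen_iInter_of_finite (fun i => isOpen_lt continuous_const (continuous_apply i))
    · intro i
      linarith
  filter_upwards [hopen] with x' hx'
  refine ⟨q, ?_, hqG⟩
  have h1 : convexHull ℝ (halfLines (fun i => x i - e / 2)) ⊆ hullSet x' :=
    (convexHull_mono (halfLines_mono (fun i => (hx' i).le))).trans subset_closure
  exact h1 hq

theorem measurable_hullSet : @Measurable _ _ _ (effros (Fin d → ℝ)) (hullSet (d := d)) := by
  apply @measurable_generateFrom
  rintro S ⟨G, hG, rfl⟩
  exact (isOpen_hit hG).measurableSet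

end Meas

/-! ### Support functions -/

section Supp
variable {d : ℕ}

/-- Support function with values in the extended reals. -/
noncomputable def hs (A : Set (Fin d → ℝ)) (u : Fin d → ℝ) : EReal := ⨆ z ∈ A, ((∑ l, z l * u l : ℝ) : EReal)

theorem lt_hs_iff (A : Set (Fin d → ℝ)) (u : Fin d → ℝ) (r : ℝ) :
    (r : EReal) < hs A u ↔ (A ∩ {z | r < ∑ l, z l * u l}).Nonempty := by
  unfold hs
  rw [lt_iSup_iff]
  constructor
  · rintro ⟨z, hz⟩
    rw [lt_iSup_iff] at hz
    obtain ⟨hzA, hzr⟩ := hz
    exact ⟨z, hzA, by exact_mod_cast hzr⟩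
  · rintro ⟨z, hzA, hzr⟩
    refine ⟨z, ?_⟩
    rw [lt_iSup_iff]
    exact ⟨hzA, by exact_mod_cast hzr⟩

theorem measurable_hs (u : Fin d → ℝ) : @Measurable _ _ (effros (Fin d → ℝ)) _ (fun A => hs A u) := by
  let _ := effros (Fin d → ℝ)
  apply measurable_of_Ioi
  intro a
  have hbase : ∀ r : ℝ, MeasurableSet {A : Set (Fin d → ℝ) | (r : EReal) < hs A u} := by
    intro r
    apply MeasurableSpace.measurableSet_generateFrom
    refine ⟨{z | r < ∑ l, z l * u l}, isOpen_lt continuous_const (continuous_dot u), ?_⟩
    ext A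
    exact lt_hs_iff A u r
  induction a with
  | bot =>
    have : (fun A => hs A u) ⁻¹' Set.Ioi ⊥ = ⋃ m : ℕ, {A : Set (Fin d → ℝ) | ((-(m : ℝ) : ℝ) : EReal) < hs A u} := by
      ext A
      rw [Set.mem_iUnion]
      constructor
      · intro h
        have h' : ⊥ < hs A u := h
        obtain ⟨r, hr1, hr2⟩ := EReal.lt_iff_exists_real_btwn.mp h'
        obtain ⟨m, hm⟩ := exists_nat_gt (-r)
        refine ⟨m, lt_trans ?_ hr2⟩
        exact_mod_cast (by linarith : -(m : ℝ) < r)
      · rintro ⟨m, hm⟩
        exact lt_of_le_of_lt bot_le (show ((-(m : ℝ) : ℝ) : EReal) < hs A u from hm)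
    rw [this]
    exact MeasurableSet.iUnion (fun m => hbase _)
  | coe r => exact hbase r
  | top =>
    have : (fun A => hs A u) ⁻¹' Set.Ioi ⊤ = ∅ := by
      ext A; simp
    rw [this]
    exact MeasurableSet.empty

/-- Support function of a compact set. -/
noncomputable def supK (K : Set (Fin d → ℝ)) (u : Fin d → ℝ) : ℝ := sSup ((fun z => ∑ l, z l * u l) '' K)

variable {K : Set (Fin d → ℝ)} (hK : IsCompact K) (hne : K.Nonempty)
include hK hne

theorem exists_supK (u : Fin d → ℝ) : ∃ z ∈ K, ∑ l, z l * u l = supK K u := by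
  have h := (hK.image (continuous_dot u)).sSup_mem (hne.image _)
  obtain ⟨z, hz, he⟩ := h
  exact ⟨z, hz, he⟩

theorem le_supK (u : Fin d → ℝ) {z : Fin d → ℝ} (hz : z ∈ K) : ∑ l, z l * u l ≤ supK K u :=
  le_csSup (hK.image (continuous_dot u)).bddAbove ⟨z, hz, rfl⟩

theorem supK_add (u w : Fin d → ℝ) : supK K (u + w) ≤ supK K u + supK K w := by
  obtain ⟨z, hz, he⟩ := exists_supK hK hne (u + w)
  rw [← he]
  have e : ∑ l, z l * (u + w) l = ∑ l, z l * u l + ∑ l, z l * w l := by
    rw [← Finset.sum_add_distrib]
    apply Finset.sum_congr rfl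
    intro l _
    simp only [Pi.add_apply]; ring
  rw [e]
  exact add_le_add (le_supK hK hne u hz) (le_supK hK hne w hz)

theorem supK_le_sum (u : Fin d → ℝ) : supK K u ≤ ∑ i, supK K (Pi.single i (u i)) := by
  obtain ⟨z, hz, he⟩ := exists_supK hK hne u
  rw [← he]
  apply Finset.sum_le_sum
  intro i _
  have h1 := le_supK hK hne (Pi.single i (u i)) hz
  have h2 : ∑ l, z l * (Pi.single i (u i) : Fin d → ℝ) l = z i * u i := by
    rw [Finset.sum_eq_single i]
    · simp
    · intro l _ hl
      rw [Pi.single_eq_of_ne hl, mul_zero]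
    · intro h; exact absurd (Finset.mem_univ i) h
  rw [h2] at h1
  exact h1

theorem supK_continuous : Continuous (supK K) := by
  obtain ⟨C, hC⟩ := hK.isBounded.exists_norm_le
  have hC0 : 0 ≤ C := by
    obtain ⟨z, hz⟩ := hne
    exact (norm_nonneg z).trans (hC z hz)
  have key : ∀ u w : Fin d → ℝ, supK K u - supK K w ≤ (C * d) * ‖u - w‖ := by
    intro u w
    obtain ⟨z, hz, he⟩ := exists_supK hK hne u
    have h1 := le_supK hK hne w hz
    have h2 : ∑ l, z l * u l - ∑ l, z l * w l ≤ (C * d) * ‖u - w‖ := by
      rw [← Finset.sum_sub_distrib]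
      have h3 : ∀ l ∈ (Finset.univ : Finset (Fin d)), z l * u l - z l * w l ≤ C * ‖u - w‖ := by
        intro l _
        rw [← mul_sub]
        refine (le_abs_self _).trans ?_
        rw [abs_mul]
        apply mul_le_mul _ _ (abs_nonneg _) hC0
        · exact (norm_le_pi_norm z l).trans (hC z hz)
        · exact norm_le_pi_norm (u - w) l
      refine (Finset.sum_le_sum h3).trans ?_
      rw [Finset.sum_const, Finset.card_univ, Fintype.card_fin, nsmul_eq_mul]
      apply le_of_eq; ring
    linarith
  have hlip : LipschitzWith (Real.toNNReal (C * d)) (supK K) := by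
    apply LipschitzWith.of_dist_le_mul
    intro u w
    rw [Real.dist_eq, dist_eq_norm, Real.coe_toNNReal _ (by positivity), abs_le]
    constructor
    · have := key w u
      rw [norm_sub_rev] at this
      linarith
    · exact key u w
  exact hlip.continuous

/-- Support function of the sum. -/
theorem hs_hullSet_add [Nonempty (Fin d)] (x : Fin d → ℝ) {u : Fin d → ℝ} (hu : ∀ i, 0 ≤ u i) :
    hs (hullSet x + K) u = ((sup x u + supK K u : ℝ) : EReal) := by
  apply le_antisymm
  · unfold hs
    apply iSup_le
    intro z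
    apply iSup_le
    rintro ⟨p, hp, q, hq, rfl⟩
    have h1 := dot_le_sup hu hp
    have h2 := le_supK hK hne u hq
    have e : ∑ l, (p + q) l * u l = ∑ l, p l * u l + ∑ l, q l * u l := by
      rw [← Finset.sum_add_distrib]
      apply Finset.sum_congr rfl
      intro l _
      simp only [Pi.add_apply]; ring
    show ((∑ l, (p + q) l * u l : ℝ) : EReal) ≤ _
    rw [e]
    exact_mod_cast add_le_add h1 h2
  · obtain ⟨p, hp, hpe⟩ := exists_dot_eq x u
    obtain ⟨q, hq, hqe⟩ := exists_supK hK hne u
    have e : ∑ l, (p + q) l * u l = sup x u + supK K u := by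
      rw [← hpe, ← hqe, ← Finset.sum_add_distrib]
      apply Finset.sum_congr rfl
      intro l _
      simp only [Pi.add_apply]; ring
    rw [← e]
    unfold hs
    exact le_iSup₂_of_le (p + q) (Set.add_mem_add hp hq) le_rfl

omit hK hne in
theorem hs_hullSet [Nonempty (Fin d)] (x : Fin d → ℝ) {u : Fin d → ℝ} (hu : ∀ i, 0 ≤ u i) :
    hs (hullSet x) u = ((sup x u : ℝ) : EReal) := by
  apply le_antisymm
  · unfold hs
    apply iSup_le
    intro z
    apply iSup_le
    intro hz
    exact_mod_cast dot_le_sup hu hz
  · obtain ⟨p, hp, hpe⟩ := exists_dot_eq x u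
    rw [← hpe]
    unfold hs
    exact le_iSup₂_of_le p hp le_rfl

end Supp

end Pool.Agent.Helper95.Hull
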