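import Mathlib
import Pool.Agent.Lib.Helper95.Hull.Supp
open MeasureTheory ProbabilityTheory Finset Filter Topology Set
open scoped Pointwise NNReal ENNReal

namespace Pool.Agent.Helper95.Hull

/-! ### The deterministic key lemma -/

section Key
variable {d : ℕ}

/-- All coordinates nonnegative. -/
def Non (x : Fin d → ℝ) : Prop := ∀ i, 0 ≤ x i
/-- All coordinates negative. -/
def Neg (x : Fin d → ℝ) : Prop := ∀ i, x i < 0

theorem red_type (x : Fin d → ℝ) : Non (red x) ∨ Neg (red x) := by
  by_cases h : ∃ i, 0 ≤ x i
  · left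
    have e : red x = fun i => max (x i) 0 := by unfold red; rw [if_pos h]
    rw [e]
    intro i
    exact le_max_right _ _
  · right
    have e : red x = x := by unfold red; rw [if_neg h]
    rw [e]
    push Not at h
    exact h

variable [Nonempty (Fin d)]

theorem sup_eq_of {x u : Fin d → ℝ} {c : ℝ} (i : Fin d) (h : x i * u i = c) (h' : ∀ l, x l * u l ≤ c) :
    sup x u = c :=
  le_antisymm (sup_le h') (h ▸ le_sup x u i)

theorem sup_nonneg_of_non {x u : Fin d → ℝ} (hx : Non x) (hu : Non u) : 0 ≤ sup x u := by
  obtain ⟨i⟩ := ‹Nonempty (Fin d)›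
  exact (mul_nonneg (hx i) (hu i)).trans (le_sup x u i)

theorem sup_single_non {x : Fin d → ℝ} (hx : Non x) (i : Fin d) {t : ℝ} (ht : 0 ≤ t) :
    sup x (Pi.single i t) = x i * t := by
  apply sup_eq_of i
  · rw [Pi.single_eq_same]
  · intro l
    by_cases hl : l = i
    · subst hl; rw [Pi.single_eq_same]
    · rw [Pi.single_eq_of_ne hl, mul_zero]
      exact mul_nonneg (hx i) ht

theorem sup_two_non {x : Fin d → ℝ} (hx : Non x) {i j : Fin d} (hij : i ≠ j) {a b : ℝ} (ha : 0 ≤ a) (hb : 0 ≤ b) :
    sup x (Pi.single i a + Pi.single j b) = max (x i * a) (x j * b) := by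
  have e1 : (Pi.single i a + Pi.single j b : Fin d → ℝ) i = a := by
    rw [Pi.add_apply, Pi.single_eq_same, Pi.single_eq_of_ne hij, add_zero]
  have e2 : (Pi.single i a + Pi.single j b : Fin d → ℝ) j = b := by
    rw [Pi.add_apply, Pi.single_eq_same, Pi.single_eq_of_ne hij.symm, zero_add]
  apply le_antisymm
  · apply sup_le
    intro l
    by_cases hl : l = i
    · subst hl; rw [e1]; exact le_max_left _ _
    · by_cases hl' : l = j
      · subst hl'; rw [e2]; exact le_max_right _ _
      · rw [Pi.add_apply, Pi.single_eq_of_ne hl, Pi.single_eq_of_ne hl', add_zero, mul_zero]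
        exact le_max_of_le_left (mul_nonneg (hx i) ha)
  · apply max_le
    · have := le_sup x (Pi.single i a + Pi.single j b) i
      rwa [e1] at this
    · have := le_sup x (Pi.single i a + Pi.single j b) j
      rwa [e2] at this

theorem sup_single_neg {x : Fin d → ℝ} (hx : Neg x) {i j : Fin d} (hij : j ≠ i) {t : ℝ} (ht : 0 ≤ t) :
    sup x (Pi.single i t) = 0 := by
  apply sup_eq_of j
  · rw [Pi.single_eq_of_ne hij, mul_zero]
  · intro l
    by_cases hl : l = i
    · subst hl; rw [Pi.single_eq_same]
      exact mul_nonpos_of_nonpos_of_nonneg (hx l).le ht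
    · rw [Pi.single_eq_of_ne hl, mul_zero]

theorem sup_one_neg {x : Fin d → ℝ} (hx : Neg x) : sup x (fun _ => 1) < 0 := by
  obtain ⟨i, hi⟩ := exists_sup_eq x (fun _ => 1)
  rw [hi, mul_one]; exact hx i

theorem sup_add_le (x y : Fin d → ℝ) (u : Fin d → ℝ) : sup (x + y) u ≤ sup x u + sup y u := by
  apply sup_le
  intro i
  rw [Pi.add_apply, add_mul]
  exact add_le_add (le_sup x u i) (le_sup y u i)

theorem sup_smul {c : ℝ} (hc : 0 ≤ c) (x u : Fin d → ℝ) : sup (c • x) u = c * sup x u := by
  obtain ⟨i, hi⟩ := exists_sup_eq x u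
  apply sup_eq_of i
  · rw [hi, Pi.smul_apply, smul_eq_mul, mul_assoc]
  · intro l
    rw [Pi.smul_apply, smul_eq_mul, mul_assoc]
    exact mul_le_mul_of_nonneg_left (le_sup x u l) hc

theorem sup_zero (u : Fin d → ℝ) : sup (0 : Fin d → ℝ) u = 0 := by
  obtain ⟨i⟩ := ‹Nonempty (Fin d)›
  apply sup_eq_of i
  · simp
  · intro l; simp

theorem non_single {i : Fin d} {t : ℝ} (ht : 0 ≤ t) : Non (Pi.single i t : Fin d → ℝ) := by
  intro l
  by_cases hl : l = i
  · subst hl; rw [Pi.single_eq_same]; exact ht
  · rw [Pi.single_eq_of_ne hl]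

omit [Nonempty (Fin d)] in
theorem non_add {u w : Fin d → ℝ} (hu : Non u) (hw : Non w) : Non (u + w) := fun i => add_nonneg (hu i) (hw i)

/-- `sup x + κ = sup y` on the positive orthant. -/
def Pair (κ : (Fin d → ℝ) → ℝ) (x y : Fin d → ℝ) : Prop := ∀ u, Non u → sup x u + κ u = sup y u

/-- Subadditivity on the positive orthant. -/
def Sub (κ : (Fin d → ℝ) → ℝ) : Prop := ∀ u w, Non u → Non w → κ (u + w) ≤ κ u + κ w

variable {κ : (Fin d → ℝ) → ℝ} {x y x' y' : Fin d → ℝ}

omit [Nonempty (Fin d)] in
theorem defect (hκ : Sub κ) (h : Pair κ x y) {u w : Fin d → ℝ} (hu : Non u) (hw : Non w) :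
    sup x u + sup x w - sup x (u + w) ≤ sup y u + sup y w - sup y (u + w) := by
  have h1 := h u hu
  have h2 := h w hw
  have h3 := h (u + w) (non_add hu hw)
  have h4 := hκ u w hu hw
  linarith

theorem not_neg_zero (hκ : Sub κ) (h : Pair κ x 0) (hx : Neg x) {i j : Fin d} (hij : i ≠ j) : False := by
  have h1 : Non (Pi.single i 1 : Fin d → ℝ) := non_single (by norm_num)
  set w : Fin d → ℝ := fun l => if l = i then 0 else 1 with hw
  have h2 : Non w := by
    intro l
    rw [hw]
    by_cases hl : l = i
    · simp [hl]
    · simp [hl]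
  have h3 := defect hκ h h1 h2
  rw [sup_zero, sup_zero, sup_zero, sup_single_neg hx hij.symm (by norm_num)] at h3
  have h4 : sup x w = 0 := by
    apply sup_eq_of i
    · rw [hw]; simp
    · intro l
      exact mul_nonpos_of_nonpos_of_nonneg (hx l).le (h2 l)
  have h5 : Pi.single i 1 + w = fun _ => 1 := by
    ext l
    by_cases hl : l = i
    · subst hl; simp [hw]
    · simp [hw, hl]
  rw [h4, h5] at h3
  have := sup_one_neg hx
  linarith

/-- Pairs of negative vectors are parallel. -/
theorem neg_parallel (hκ : Sub κ) (h : Pair κ x y) (hx : Neg x) (hy : Neg y) (i j : Fin d) : y i * x j = y j * x i := by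
  have key : ∀ i j : Fin d, i ≠ j → ¬ (y i * x j < y j * x i) := by
    intro i j hij hlt
    have hxi := hx i
    have hxj := hx j
    have hyi := hy i
    have hyj := hy j
    set u : Fin d → ℝ := fun l => if l = i then -x j - y j else if l = j then -x i - y i else
      x j * (-x i - y i) / x l + y i * (-x j - y j) / y l with hu
    set w : Fin d → ℝ := fun l => if l = i then 0 else 1 with hw
    have ui : u i = -x j - y j := by simp [hu]
    have uj : u j = -x i - y i := by simp [hu, hij.symm]
    have ul : ∀ l, l ≠ i → l ≠ j → u l = x j * (-x i - y i) / x l + y i * (-x j - y j) / y l := by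
      intro l h1 h2; simp [hu, h1, h2]
    have p1 : x j * (-x i - y i) < 0 := mul_neg_of_neg_of_pos hxj (by linarith)
    have p2 : y i * (-x j - y j) < 0 := mul_neg_of_neg_of_pos hyi (by linarith)
    have ul_pos : ∀ l, l ≠ i → l ≠ j → 0 < u l := by
      intro l h1 h2
      rw [ul l h1 h2]
      exact add_pos (div_pos_of_neg_of_neg p1 (hx l)) (div_pos_of_neg_of_neg p2 (hy l))
    have hu0 : Non u := by
      intro l
      by_cases h1 : l = i
      · subst h1; rw [ui]; linarith
      · by_cases h2 : l = j
        · subst h2; rw [uj]; linarith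
        · exact (ul_pos l h1 h2).le
    have hw0 : Non w := by
      intro l
      rw [hw]
      by_cases h1 : l = i
      · simp [h1]
      · simp [h1]
    have wi : w i = 0 := by simp [hw]
    have wl : ∀ l, l ≠ i → w l = 1 := by intro l h1; simp [hw, h1]
    have hxl : ∀ l, l ≠ i → l ≠ j → x l * u l ≤ x j * u j := by
      intro l h1 h2
      rw [ul l h1 h2, uj]
      have hl := (hx l).ne
      have e : x l * (x j * (-x i - y i) / x l + y i * (-x j - y j) / y l) =
          x j * (-x i - y i) + x l * (y i * (-x j - y j) / y l) := by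
        field_simp
      rw [e]
      have := mul_neg_of_neg_of_pos (hx l) (div_pos_of_neg_of_neg p2 (hy l))
      linarith
    have hyl : ∀ l, l ≠ i → l ≠ j → y l * u l ≤ y i * u i := by
      intro l h1 h2
      rw [ul l h1 h2, ui]
      have hl := (hy l).ne
      have e : y l * (x j * (-x i - y i) / x l + y i * (-x j - y j) / y l) =
          y i * (-x j - y j) + y l * (x j * (-x i - y i) / x l) := by
        field_simp
        ring
      rw [e]
      have := mul_neg_of_neg_of_pos (hy l) (div_pos_of_neg_of_neg p1 (hx l))
      linarith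
    have hxij : x i * u i < x j * u j := by rw [ui, uj]; nlinarith
    have hyij : y j * u j < y i * u i := by rw [ui, uj]; nlinarith
    have s1 : sup y u = y i * u i := by
      apply sup_eq_of i rfl
      intro l
      by_cases h1 : l = i
      · rw [h1]
      · by_cases h2 : l = j
        · rw [h2]; exact hyij.le
        · exact hyl l h1 h2
    have s2 : sup y w = 0 := by
      apply sup_eq_of i
      · rw [wi, mul_zero]
      · intro l
        exact mul_nonpos_of_nonpos_of_nonneg (hy l).le (hw0 l)
    have s3 : sup y (u + w) = y i * u i := by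
      apply sup_eq_of i
      · rw [Pi.add_apply, wi, add_zero]
      · intro l
        rw [Pi.add_apply, mul_add]
        have : y l * w l ≤ 0 := mul_nonpos_of_nonpos_of_nonneg (hy l).le (hw0 l)
        have h1 := le_sup y u l
        rw [s1] at h1
        linarith
    have t1 : sup x u = x j * u j := by
      apply sup_eq_of j rfl
      intro l
      by_cases h1 : l = i
      · rw [h1]; exact hxij.le
      · by_cases h2 : l = j
        · rw [h2]
        · exact hxl l h1 h2
    have t2 : sup x w = 0 := by
      apply sup_eq_of i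
      · rw [wi, mul_zero]
      · intro l
        exact mul_nonpos_of_nonpos_of_nonneg (hx l).le (hw0 l)
    have t3 : sup x (u + w) < x j * u j := by
      obtain ⟨l, hl⟩ := exists_sup_eq x (u + w)
      rw [hl, Pi.add_apply, mul_add]
      by_cases h1 : l = i
      · rw [h1, wi, mul_zero, add_zero]; exact hxij
      · rw [wl l h1, mul_one]
        have h2 := le_sup x u l
        rw [t1] at h2
        linarith [hx l]
    have hD := defect hκ h hu0 hw0
    rw [s1, s2, s3, t1, t2] at hD
    linarith
  by_cases hij : i = j
  · rw [hij]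
  · have h1 := key i j hij
    have h2 := key j i (Ne.symm hij)
    push Not at h1 h2
    linarith

theorem non_parallel (hκ : Sub κ) (h : Pair κ x y) (hx : Non x) (hy : Non y) {i j : Fin d} (hij : i ≠ j)
    (hxi : 0 < x i) (hxj : 0 < x j) : y i * x j = y j * x i := by
  have key : ∀ i j : Fin d, i ≠ j → 0 < x i → 0 < x j → ¬ (y i * x j < y j * x i) := by
    intro i j hij hxi hxj hlt
    have a0 : 0 ≤ x j + y j := add_nonneg (hx j) (hy j)
    have b0 : 0 ≤ x i + y i := add_nonneg (hx i) (hy i)
    have hu0 : Non (Pi.single i (x j + y j) + Pi.single j (x i + y i) : Fin d → ℝ) :=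
      non_add (non_single a0) (non_single b0)
    have hw0 : Non (Pi.single j 1 : Fin d → ℝ) := non_single (by norm_num)
    have hD := defect hκ h hu0 hw0
    have e : (Pi.single i (x j + y j) + Pi.single j (x i + y i) + Pi.single j 1 : Fin d → ℝ) =
        Pi.single i (x j + y j) + Pi.single j (x i + y i + 1) := by
      rw [add_assoc, ← Pi.single_add]
    have hxij : x j * (x i + y i) < x i * (x j + y j) := by nlinarith
    have hyij : y i * (x j + y j) < y j * (x i + y i) := by nlinarith
    rw [e, sup_two_non hx hij a0 b0, sup_two_non hx hij a0 (by linarith), sup_two_non hy hij a0 b0,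
      sup_two_non hy hij a0 (by linarith), sup_single_non hx j (by norm_num), sup_single_non hy j (by norm_num),
      max_eq_left hxij.le, max_eq_right hyij.le] at hD
    have h1 : max (y i * (x j + y j)) (y j * (x i + y i + 1)) = y j * (x i + y i + 1) := by
      apply max_eq_right
      nlinarith [hy j]
    have h2 : max (x i * (x j + y j)) (x j * (x i + y i + 1)) < x i * (x j + y j) + x j := by
      apply max_lt <;> linarith
    rw [h1] at hD
    linarith
  have h1 := key i j hij hxi hxj
  have h2 := key j i (Ne.symm hij) hxj hxi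
  push Not at h1 h2
  linarith

theorem non_vanish (hκ : Sub κ) (h : Pair κ x y) (hx : Non x) (hy : Non y) {i j l : Fin d} (hij : i ≠ j)
    (hxi : 0 < x i) (hxj : 0 < x j) (hxl : x l = 0) : y l = 0 := by
  by_contra hyl
  have hyl0 : 0 < y l := lt_of_le_of_ne (hy l) (Ne.symm hyl)
  have hli : l ≠ i := by rintro rfl; linarith
  have hlj : l ≠ j := by rintro rfl; linarith
  set M : ℝ := (y i * x j + y j * x i) / y l with hM
  have hM0 : 0 ≤ M := by
    apply div_nonneg _ (hy l)
    exact add_nonneg (mul_nonneg (hy i) (hx j)) (mul_nonneg (hy j) (hx i))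
  have hMy : y l * M = y i * x j + y j * x i := by rw [hM]; field_simp
  have q1 : 0 ≤ y i * x j := mul_nonneg (hy i) (hx j)
  have q2 : 0 ≤ y j * x i := mul_nonneg (hy j) (hx i)
  have hu0 : Non (Pi.single i (x j) + Pi.single l M : Fin d → ℝ) := non_add (non_single (hx j)) (non_single hM0)
  have hw0 : Non (Pi.single j (x i) + Pi.single l M : Fin d → ℝ) := non_add (non_single (hx i)) (non_single hM0)
  have hD := defect hκ h hu0 hw0
  rw [sup_two_non hx (Ne.symm hli) (hx j) hM0, sup_two_non hx (Ne.symm hlj) (hx i) hM0,
    sup_two_non hy (Ne.symm hli) (hx j) hM0, sup_two_non hy (Ne.symm hlj) (hx i) hM0, hxl, zero_mul,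
    max_eq_left (mul_nonneg (hx i) (hx j)), max_eq_left (mul_nonneg (hx j) (hx i)), hMy,
    max_eq_right (by linarith), max_eq_right (by linarith)] at hD
  have s1 : sup x (Pi.single i (x j) + Pi.single l M + (Pi.single j (x i) + Pi.single l M)) ≤ x i * x j := by
    apply sup_le
    intro q
    simp only [Pi.add_apply]
    by_cases h1 : q = i
    · subst h1
      rw [Pi.single_eq_same, Pi.single_eq_of_ne (Ne.symm hli), Pi.single_eq_of_ne hij]
      linarith
    · by_cases h2 : q = j
      · subst h2
        rw [Pi.single_eq_same, Pi.single_eq_of_ne (Ne.symm hlj), Pi.single_eq_of_ne h1]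
        linarith
      · by_cases h3 : q = l
        · subst h3
          rw [hxl, zero_mul]
          positivity
        · rw [Pi.single_eq_of_ne h1, Pi.single_eq_of_ne h2, Pi.single_eq_of_ne h3]
          have : 0 < x i * x j := mul_pos hxi hxj
          linarith
  have s2 : y l * (2 * M) ≤ sup y (Pi.single i (x j) + Pi.single l M + (Pi.single j (x i) + Pi.single l M)) := by
    have := le_sup y (Pi.single i (x j) + Pi.single l M + (Pi.single j (x i) + Pi.single l M)) l
    simp only [Pi.add_apply] at this
    rw [Pi.single_eq_of_ne hli, Pi.single_eq_same, Pi.single_eq_of_ne hlj] at this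
    linarith
  have s3 : y l * (2 * M) = 2 * (y i * x j + y j * x i) := by rw [← hMy]; ring
  have : 0 < x i * x j := mul_pos hxi hxj
  linarith

/-- Sums of support functions with different maximisers. -/
theorem par_of_add {k : Fin d → ℝ} (hx : Non x) (hk : Non k) (h : ∀ u, Non u → sup (x + k) u = sup x u + sup k u)
    (i j : Fin d) : x i * k j = x j * k i := by
  have key : ∀ i j : Fin d, i ≠ j → ¬ (x j * k i < x i * k j) := by
    intro i j hij hlt
    have a0 : 0 ≤ x j + k j := add_nonneg (hx j) (hk j)
    have b0 : 0 ≤ x i + k i := add_nonneg (hx i) (hk i)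
    have hu0 : Non (Pi.single i (x j + k j) + Pi.single j (x i + k i) : Fin d → ℝ) :=
      non_add (non_single a0) (non_single b0)
    have h1 := h _ hu0
    have hxij : x j * (x i + k i) < x i * (x j + k j) := by nlinarith
    have hkij : k i * (x j + k j) < k j * (x i + k i) := by nlinarith
    rw [sup_two_non (non_add hx hk) hij a0 b0, sup_two_non hx hij a0 b0, sup_two_non hk hij a0 b0,
      max_eq_left hxij.le, max_eq_right hkij.le] at h1
    have h2 : max ((x + k) i * (x j + k j)) ((x + k) j * (x i + k i)) < x i * (x j + k j) + k j * (x i + k i) := by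
      rw [Pi.add_apply, Pi.add_apply]
      apply max_lt <;> nlinarith
    linarith
  by_cases hij : i = j
  · rw [hij]
  · have h1 := key i j hij
    have h2 := key j i (Ne.symm hij)
    push Not at h1 h2
    linarith

/-- A negative vector is determined by its support function. -/
theorem neg_inj (hx : Neg x) (hx' : Neg x') (h : ∀ u, Non u → sup x u = sup x' u) : x = x' := by
  ext j
  have hxj := hx j
  have hxj' := hx' j
  set u : Fin d → ℝ := fun l => if l = j then 1 else x j / x l + x' j / x' l with hu
  have uj : u j = 1 := by simp [hu]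
  have ul : ∀ l, l ≠ j → u l = x j / x l + x' j / x' l := by intro l h1; simp [hu, h1]
  have hpos : ∀ l, 0 < x j / x l ∧ 0 < x' j / x' l := fun l =>
    ⟨div_pos_of_neg_of_neg hxj (hx l), div_pos_of_neg_of_neg hxj' (hx' l)⟩
  have hu0 : Non u := by
    intro l
    by_cases h1 : l = j
    · rw [h1, uj]; norm_num
    · rw [ul l h1]; linarith [(hpos l).1, (hpos l).2]
  have s1 : sup x u = x j := by
    apply sup_eq_of j
    · rw [uj, mul_one]
    · intro l
      by_cases h1 : l = j
      · rw [h1, uj, mul_one]
      · rw [ul l h1, mul_add]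
        have hl := (hx l).ne
        have e : x l * (x j / x l) = x j := by field_simp
        rw [e]
        have := mul_neg_of_neg_of_pos (hx l) (hpos l).2
        linarith
  have s2 : sup x' u = x' j := by
    apply sup_eq_of j
    · rw [uj, mul_one]
    · intro l
      by_cases h1 : l = j
      · rw [h1, uj, mul_one]
      · rw [ul l h1, mul_add]
        have hl := (hx' l).ne
        have e : x' l * (x' j / x' l) = x' j := by field_simp
        rw [e]
        have := mul_neg_of_neg_of_pos (hx' l) (hpos l).1
        linarith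
  have := h u hu0
  rw [s1, s2] at this
  exact this

end Key

end Pool.Agent.Helper95.Hull
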