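import Mathlib
import Pool.Agent.Lib.Helper95.Hull.Pairs
open MeasureTheory ProbabilityTheory Finset Filter Topology Set
open scoped Pointwise NNReal ENNReal

namespace Pool.Agent.Helper95.Hull

section Key
variable {d : ℕ} [Nonempty (Fin d)]
variable {κ : (Fin d → ℝ) → ℝ} {x y x' y' : Fin d → ℝ}

theorem kappa_non (h : Pair κ x y) (hx : Non x) (hy : Non y) (j : Fin d) : κ (Pi.single j 1) = y j - x j := by
  have h1 := h (Pi.single j 1) (non_single (by norm_num))
  rw [sup_single_non hx j (by norm_num), sup_single_non hy j (by norm_num)] at h1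
  linarith

theorem kappa_neg (h : Pair κ x y) (hx : Neg x) (hy : Neg y) {j l : Fin d} (hlj : l ≠ j) : κ (Pi.single j 1) = 0 := by
  have h1 := h (Pi.single j 1) (non_single (by norm_num))
  rw [sup_single_neg hx hlj (by norm_num), sup_single_neg hy hlj (by norm_num)] at h1
  linarith

theorem kappa_neg_non (h : Pair κ x y) (hx : Neg x) (hy : Non y) {j l : Fin d} (hlj : l ≠ j) :
    κ (Pi.single j 1) = y j := by
  have h1 := h (Pi.single j 1) (non_single (by norm_num))
  rw [sup_single_neg hx hlj (by norm_num), sup_single_non hy j (by norm_num)] at h1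
  linarith

theorem kappa_non_neg (h : Pair κ x y) (hx : Non x) (hy : Neg y) {j l : Fin d} (hlj : l ≠ j) :
    κ (Pi.single j 1) = -x j := by
  have h1 := h (Pi.single j 1) (non_single (by norm_num))
  rw [sup_single_non hx j (by norm_num), sup_single_neg hy hlj (by norm_num)] at h1
  linarith

/-- Two nonnegative pairs, the first with two positive coordinates. -/
theorem key_two (hκ : Sub κ) (h : Pair κ x y) (hx : Non x) (hy : Non y) (h' : Pair κ x' y') (hx' : Non x')
    (hy' : Non y') {i j : Fin d} (hij : i ≠ j) (hxi : 0 < x i) (hxj : 0 < x j) :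
    (∀ u, Non u → κ u = 0) ∨ ∃ t : ℝ, 0 ≤ t ∧ x' = t • x := by
  -- `y` is a multiple of `x`
  have hpar : ∀ l, y l * x i = y i * x l := by
    intro l
    by_cases hli : l = i
    · rw [hli]
    · rcases (hx l).eq_or_lt with h0 | h0
      · rw [non_vanish hκ h hx hy hij hxi hxj h0.symm, ← h0]; ring
      · exact non_parallel hκ h hx hy hli h0 hxi
  set c : ℝ := (y i - x i) / x i with hc
  have hxi' : x i ≠ 0 := hxi.ne'
  have hyc : y = (1 + c) • x := by
    ext l
    rw [Pi.smul_apply, smul_eq_mul, hc]
    have := hpar l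
    field_simp
    linarith
  -- `c ≥ 0`
  have hc0 : 0 ≤ c := by
    have hD := defect hκ h (non_single (i := i) (hx j)) (non_single (i := j) (hx i))
    rw [sup_two_non hx hij (hx j) (hx i), sup_two_non hy hij (hx j) (hx i), sup_single_non hx i (hx j),
      sup_single_non hx j (hx i), sup_single_non hy i (hx j), sup_single_non hy j (hx i)] at hD
    have e1 := hpar j
    have e2 : x j * x i = x i * x j := mul_comm _ _
    rw [e1, e2, max_self, max_self] at hD
    rw [hc]
    apply div_nonneg _ hxi.le
    have h3 : x i * x j ≤ y i * x j := by linarith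
    have h4 : x i ≤ y i := le_of_mul_le_mul_right h3 hxj
    linarith
  -- `κ` is the support function of `c • x`
  have hκc : ∀ u, Non u → κ u = sup (c • x) u := by
    intro u hu
    have h1 := h u hu
    rw [hyc, sup_smul (by linarith)] at h1
    rw [sup_smul hc0]
    linarith
  rcases hc0.eq_or_lt with hc1 | hc1
  · left
    intro u hu
    rw [hκc u hu, ← hc1, zero_smul, sup_zero]
  · right
    have hk : Non (c • x) := fun l => mul_nonneg hc0 (hx l)
    -- `y' = x' + c • x`
    have hy'c : y' = x' + c • x := by
      ext l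
      have h1 := kappa_non h hx hy l
      have h2 := kappa_non h' hx' hy' l
      have h3 : y l = (1 + c) * x l := by
        have := congrFun hyc l
        rwa [Pi.smul_apply, smul_eq_mul] at this
      rw [Pi.add_apply, Pi.smul_apply, smul_eq_mul]
      linarith
    have hadd : ∀ u, Non u → sup (x' + c • x) u = sup x' u + sup (c • x) u := by
      intro u hu
      have h1 := h' u hu
      rw [hκc u hu, hy'c] at h1
      exact h1.symm
    have hp := par_of_add hx' hk hadd
    refine ⟨x' i / x i, div_nonneg (hx' i) hxi.le, ?_⟩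
    ext l
    have h1 := hp i l
    simp only [Pi.smul_apply, smul_eq_mul] at h1 ⊢
    have h2 : x' i * x l = x' l * x i := by
      have h3 : c * (x' i * x l) = c * (x' l * x i) := by linarith
      exact mul_left_cancel₀ hc1.ne' h3
    rw [div_mul_eq_mul_div, eq_div_iff hxi']
    exact h2.symm

omit [Nonempty (Fin d)] in
/-- A nonnegative vector without two positive coordinates. -/
theorem single_of_not_two (hx : Non x) (h : ¬ ∃ i j : Fin d, i ≠ j ∧ 0 < x i ∧ 0 < x j) :
    x = 0 ∨ ∃ i, 0 < x i ∧ x = Pi.single i (x i) := by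
  by_cases h0 : ∃ i, 0 < x i
  · obtain ⟨i, hi⟩ := h0
    right
    refine ⟨i, hi, ?_⟩
    ext l
    by_cases hl : l = i
    · rw [hl, Pi.single_eq_same]
    · rw [Pi.single_eq_of_ne hl]
      by_contra hne
      exact h ⟨l, i, hl, lt_of_le_of_ne (hx l) (Ne.symm hne), hi⟩
  · left
    push Not at h0
    ext l
    exact le_antisymm (h0 l) (hx l)

/-- Two nonnegative pairs. -/
theorem key_non (hκ : Sub κ) (h : Pair κ x y) (hx : Non x) (hy : Non y) (h' : Pair κ x' y') (hx' : Non x')
    (hy' : Non y') : (∀ u, Non u → κ u = 0) ∨ x = 0 ∨ ∃ t : ℝ, 0 ≤ t ∧ x' = t • x := by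
  by_cases h2 : ∃ i j : Fin d, i ≠ j ∧ 0 < x i ∧ 0 < x j
  · obtain ⟨i, j, hij, hi, hj⟩ := h2
    rcases key_two hκ h hx hy h' hx' hy' hij hi hj with h3 | h3
    · exact Or.inl h3
    · exact Or.inr (Or.inr h3)
  by_cases h2' : ∃ i j : Fin d, i ≠ j ∧ 0 < x' i ∧ 0 < x' j
  · obtain ⟨i, j, hij, hi, hj⟩ := h2'
    rcases key_two hκ h' hx' hy' h hx hy hij hi hj with h3 | ⟨t, ht, h3⟩
    · exact Or.inl h3
    · right
      rcases ht.eq_or_lt with h4 | h4
      · left
        rw [h3, ← h4, zero_smul]
      · right
        refine ⟨t⁻¹, (inv_pos.mpr h4).le, ?_⟩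
        rw [h3, smul_smul, inv_mul_cancel₀ h4.ne', one_smul]
  rcases single_of_not_two hx h2 with h0 | ⟨i, hi, hxs⟩
  · exact Or.inr (Or.inl h0)
  rcases single_of_not_two hx' h2' with h0' | ⟨j, hj, hxs'⟩
  · right; right
    exact ⟨0, le_rfl, by rw [h0', zero_smul]⟩
  by_cases hij : i = j
  · right; right
    subst hij
    refine ⟨x' i / x i, div_nonneg hj.le hi.le, ?_⟩
    ext l
    rw [Pi.smul_apply, smul_eq_mul]
    by_cases hl : l = i
    · rw [hl]; field_simp
    · rw [hxs', hxs, Pi.single_eq_of_ne hl, Pi.single_eq_of_ne hl, mul_zero]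
  · left
    have hxz : ∀ l, l ≠ i → x l = 0 := by
      intro l hl; rw [hxs, Pi.single_eq_of_ne hl]
    have hxz' : ∀ l, l ≠ j → x' l = 0 := by
      intro l hl; rw [hxs', Pi.single_eq_of_ne hl]
    have hk : ∀ l, y l - x l = y' l - x' l := by
      intro l
      rw [← kappa_non h hx hy l, ← kappa_non h' hx' hy' l]
    -- values at `(1, t)` on the coordinates `i`, `j`
    have heq : ∀ t : ℝ, 0 < t → y j * t ≤ y i → y i - x i = y j * t := by
      intro t ht hle
      have hu0 : Non (Pi.single i 1 + Pi.single j t : Fin d → ℝ) := non_add (non_single (by norm_num)) (non_single ht.le)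
      have e1 := h _ hu0
      have e2 := h' _ hu0
      rw [sup_two_non hx hij (by norm_num) ht.le, sup_two_non hy hij (by norm_num) ht.le, hxz j (Ne.symm hij), zero_mul,
        mul_one, mul_one, max_eq_left hi.le, max_eq_left hle] at e1
      rw [sup_two_non hx' hij (by norm_num) ht.le, sup_two_non hy' hij (by norm_num) ht.le, hxz' i hij, zero_mul,
        mul_one, max_eq_right (mul_nonneg hj.le ht.le)] at e2
      have k1 := hk i
      have k2 := hk j
      rw [hxz' i hij] at k1
      rw [hxz j (Ne.symm hij)] at k2
      have hjt : 0 < x' j * t := mul_pos hj ht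
      rcases le_total (y' i) (y' j * t) with h3 | h3
      · rw [max_eq_right h3] at e2
        nlinarith
      · rw [max_eq_left h3] at e2
        linarith
    have hyi : x i ≤ y i := by
      have k1 := hk i
      rw [hxz' i hij] at k1
      have := hy' i
      linarith
    have hyj : 0 ≤ y j := hy j
    set t₀ : ℝ := x i / (y j + 1) with ht₀
    have ht₀0 : 0 < t₀ := div_pos hi (by linarith)
    have ht₀1 : y j * t₀ ≤ x i := by
      rw [ht₀, mul_div_assoc', div_le_iff₀ (by linarith)]
      nlinarith
    have f1 := heq t₀ ht₀0 (ht₀1.trans hyi)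
    have f2 := heq (t₀ / 2) (half_pos ht₀0) (by nlinarith)
    have hyj0 : y j = 0 := by
      have : y j * t₀ = 0 := by linarith
      rcases mul_eq_zero.mp this with h3 | h3
      · exact h3
      · exact absurd h3 ht₀0.ne'
    have hyi0 : y i = x i := by rw [hyj0] at f1; linarith
    have hyl : ∀ l, l ≠ i → y l = 0 := by
      intro l hl
      by_cases hlj : l = j
      · rw [hlj]; exact hyj0
      · have hu0 : Non (Pi.single i 1 + Pi.single l 1 : Fin d → ℝ) :=
          non_add (non_single (by norm_num)) (non_single (by norm_num))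
        have e1 := h _ hu0
        have e2 := h' _ hu0
        rw [sup_two_non hx (Ne.symm hl) (by norm_num) (by norm_num), sup_two_non hy (Ne.symm hl) (by norm_num) (by norm_num),
          hxz l hl, zero_mul, mul_one, mul_one, mul_one, max_eq_left hi.le, hyi0] at e1
        rw [sup_two_non hx' (Ne.symm hl) (by norm_num) (by norm_num), sup_two_non hy' (Ne.symm hl) (by norm_num) (by norm_num),
          hxz' i hij, hxz' l hlj, zero_mul, max_self, mul_one, mul_one] at e2
        have k1 := hk i
        have k2 := hk l
        rw [hxz' i hij, hyi0] at k1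
        rw [hxz l hl, hxz' l hlj] at k2
        have hyl0 := hy l
        have k3 : y' i = 0 := by linarith
        have k4 : y' l = y l := by linarith
        rw [k3, k4, max_eq_right hyl0] at e2
        rcases le_total (x i) (y l) with h3 | h3
        · rw [max_eq_right h3] at e1
          linarith
        · rw [max_eq_left h3] at e1
          linarith
    have hyx : y = x := by
      ext l
      by_cases hl : l = i
      · rw [hl, hyi0]
      · rw [hyl l hl, hxz l hl]
    intro u hu
    have := h u hu
    rw [hyx] at this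
    linarith

/-- Mixed pairs are incompatible with nonnegative ones. -/
theorem absurd_neg_non (h : Pair κ x y) (hx : Non x) (hy : Non y) (h' : Pair κ x' y') (hx' : Neg x')
    (hy' : Non y') (hd : ∀ j : Fin d, ∃ l, l ≠ j) : False := by
  have e : y = x + y' := by
    ext j
    obtain ⟨l, hl⟩ := hd j
    have h1 := kappa_non h hx hy j
    have h2 := kappa_neg_non h' hx' hy' hl
    rw [Pi.add_apply]; linarith
  have hone : Non (fun _ : Fin d => (1 : ℝ)) := fun _ => by norm_num
  have h1 := h _ hone
  have h2 := h' _ hone
  have h3 := sup_add_le x y' (fun _ => 1)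
  have h4 := sup_one_neg hx'
  rw [e] at h1
  linarith

theorem absurd_non_neg (h : Pair κ x y) (hx : Non x) (hy : Non y) (h' : Pair κ x' y') (hx' : Non x')
    (hy' : Neg y') (hd : ∀ j : Fin d, ∃ l, l ≠ j) : False := by
  have e : x = y + x' := by
    ext j
    obtain ⟨l, hl⟩ := hd j
    have h1 := kappa_non h hx hy j
    have h2 := kappa_non_neg h' hx' hy' hl
    rw [Pi.add_apply]; linarith
  have hone : Non (fun _ : Fin d => (1 : ℝ)) := fun _ => by norm_num
  have h1 := h _ hone
  have h2 := h' _ hone
  have h3 := sup_add_le y x' (fun _ => 1)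
  have h4 := sup_one_neg hy'
  rw [e] at h1
  linarith

/-- The key lemma: two vectors that can be shifted by the same `κ ≠ 0` lie on a common ray. -/
theorem key (hκ : Sub κ) (h : Pair κ x y) (hx : Non x ∨ Neg x) (hy : Non y ∨ Neg y) (h' : Pair κ x' y')
    (hx' : Non x' ∨ Neg x') (hy' : Non y' ∨ Neg y') (hd : ∀ j : Fin d, ∃ l, l ≠ j) :
    (∀ u, Non u → κ u = 0) ∨ x = 0 ∨ ∃ t : ℝ, 0 ≤ t ∧ x' = t • x := by
  obtain ⟨i₀⟩ := ‹Nonempty (Fin d)›
  obtain ⟨l₀, hl₀⟩ := hd i₀
  have zero_of_same : Non x → x = y → (∀ u, Non u → κ u = 0) := by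
    intro _ hxy u hu
    have := h u hu
    rw [hxy] at this
    linarith
  rcases hx with hx | hx <;> rcases hy with hy | hy <;> rcases hx' with hx' | hx' <;> rcases hy' with hy' | hy'
  · exact key_non hκ h hx hy h' hx' hy'
  · exact (absurd_non_neg h hx hy h' hx' hy' hd).elim
  · exact (absurd_neg_non h hx hy h' hx' hy' hd).elim
  · -- (+,+) and (-,-)
    left
    apply zero_of_same hx
    ext j
    obtain ⟨l, hl⟩ := hd j
    have h1 := kappa_non h hx hy j
    have h2 := kappa_neg h' hx' hy' hl
    linarith
  · -- (+,-) and (+,+)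
    exact (absurd_non_neg h' hx' hy' h hx hy hd).elim
  · -- (+,-) and (+,-)
    right; right
    refine ⟨1, by norm_num, ?_⟩
    rw [one_smul]
    ext j
    obtain ⟨l, hl⟩ := hd j
    have h1 := kappa_non_neg h hx hy hl
    have h2 := kappa_non_neg h' hx' hy' hl
    linarith
  · -- (+,-) and (-,+)
    exfalso
    have e : y' = 0 := by
      ext j
      obtain ⟨l, hl⟩ := hd j
      have h1 := kappa_non_neg h hx hy hl
      have h2 := kappa_neg_non h' hx' hy' hl
      have h3 := hx j
      have h4 := hy' j
      show y' j = 0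
      linarith
    rw [e] at h'
    exact not_neg_zero hκ h' hx' (Ne.symm hl₀)
  · -- (+,-) and (-,-)
    right; left
    ext j
    obtain ⟨l, hl⟩ := hd j
    have h1 := kappa_non_neg h hx hy hl
    have h2 := kappa_neg h' hx' hy' hl
    show x j = 0
    linarith
  · -- (-,+) and (+,+)
    exact (absurd_neg_non h' hx' hy' h hx hy hd).elim
  · -- (-,+) and (+,-)
    exfalso
    have e : y = 0 := by
      ext j
      obtain ⟨l, hl⟩ := hd j
      have h1 := kappa_neg_non h hx hy hl
      have h2 := kappa_non_neg h' hx' hy' hl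
      have h3 := hx' j
      have h4 := hy j
      show y j = 0
      linarith
    rw [e] at h
    exact not_neg_zero hκ h hx (Ne.symm hl₀)
  · -- (-,+) and (-,+)
    right; right
    refine ⟨1, by norm_num, ?_⟩
    rw [one_smul]
    have e : y' = y := by
      ext j
      obtain ⟨l, hl⟩ := hd j
      have h1 := kappa_neg_non h hx hy hl
      have h2 := kappa_neg_non h' hx' hy' hl
      linarith
    apply neg_inj hx' hx
    intro u hu
    have h1 := h u hu
    have h2 := h' u hu
    rw [e] at h2
    linarith
  · -- (-,+) and (-,-)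
    exfalso
    have e : y = 0 := by
      ext j
      obtain ⟨l, hl⟩ := hd j
      have h1 := kappa_neg_non h hx hy hl
      have h2 := kappa_neg h' hx' hy' hl
      show y j = 0
      linarith
    rw [e] at h
    exact not_neg_zero hκ h hx (Ne.symm hl₀)
  · -- (-,-) and (+,+)
    left
    have e : y' = x' := by
      ext j
      obtain ⟨l, hl⟩ := hd j
      have h1 := kappa_neg h hx hy hl
      have h2 := kappa_non h' hx' hy' j
      linarith
    intro u hu
    have := h' u hu
    rw [e] at this
    linarith
  · -- (-,-) and (+,-)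
    right; right
    refine ⟨0, le_rfl, ?_⟩
    rw [zero_smul]
    ext j
    obtain ⟨l, hl⟩ := hd j
    have h1 := kappa_neg h hx hy hl
    have h2 := kappa_non_neg h' hx' hy' hl
    show x' j = 0
    linarith
  · -- (-,-) and (-,+)
    exfalso
    have e : y' = 0 := by
      ext j
      obtain ⟨l, hl⟩ := hd j
      have h1 := kappa_neg h hx hy hl
      have h2 := kappa_neg_non h' hx' hy' hl
      show y' j = 0
      linarith
    rw [e] at h'
    exact not_neg_zero hκ h' hx' (Ne.symm hl₀)
  · -- (-,-) and (-,-)
    have hp := neg_parallel hκ h hx hy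
    have hp' := neg_parallel hκ h' hx' hy'
    -- `y = (1 + c) x`, `y' = (1 + c') x'`
    have hxi := hx i₀
    have hxi' := hx' i₀
    have hyi := hy i₀
    have hyi' := hy' i₀
    set c : ℝ := y i₀ / x i₀ with hc
    set c' : ℝ := y' i₀ / x' i₀ with hc'
    have hc0 : 0 < c := div_pos_of_neg_of_neg hyi hxi
    have hc0' : 0 < c' := div_pos_of_neg_of_neg hyi' hxi'
    have hyc : y = c • x := by
      ext l
      rw [Pi.smul_apply, smul_eq_mul, hc, div_mul_eq_mul_div, eq_div_iff hxi.ne]
      exact hp l i₀
    have hyc' : y' = c' • x' := by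
      ext l
      rw [Pi.smul_apply, smul_eq_mul, hc', div_mul_eq_mul_div, eq_div_iff hxi'.ne]
      exact hp' l i₀
    have hk : ∀ u, Non u → κ u = (c - 1) * sup x u := by
      intro u hu
      have := h u hu
      rw [hyc, sup_smul hc0.le] at this
      linarith
    have hk' : ∀ u, Non u → κ u = (c' - 1) * sup x' u := by
      intro u hu
      have := h' u hu
      rw [hyc', sup_smul hc0'.le] at this
      linarith
    by_cases hc1 : c = 1
    · left
      intro u hu
      rw [hk u hu, hc1, sub_self, zero_mul]
    · right; right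
      have hone : Non (fun _ : Fin d => (1 : ℝ)) := fun _ => by norm_num
      have s1 := sup_one_neg hx
      have s1' := sup_one_neg hx'
      have hc1' : c' - 1 ≠ 0 := by
        intro h0
        have h1 := hk _ hone
        have h2 := hk' _ hone
        rw [h0, zero_mul] at h2
        rw [h2] at h1
        rcases mul_eq_zero.mp h1.symm with h3 | h3
        · exact hc1 (by linarith)
        · linarith
      set t : ℝ := (c - 1) / (c' - 1) with ht
      have hsup : ∀ u, Non u → sup x' u = t * sup x u := by
        intro u hu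
        have h1 := hk u hu
        have h2 := hk' u hu
        rw [ht, div_mul_eq_mul_div, eq_div_iff hc1']
        linarith
      have ht0 : 0 < t := by
        have h1 := hsup _ hone
        by_contra hcon
        push Not at hcon
        have : 0 ≤ t * sup x (fun _ => 1) := mul_nonneg_of_nonpos_of_nonpos hcon s1.le
        linarith
      refine ⟨t, ht0.le, ?_⟩
      apply neg_inj hx'
      · intro l
        exact mul_neg_of_pos_of_neg ht0 (hx l)
      · intro u hu
        rw [sup_smul ht0.le]
        exact hsup u hu

end Key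

end Pool.Agent.Helper95.Hull
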