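import Mathlib
open MeasureTheory ProbabilityTheory Finset Filter Topology Set
open scoped Pointwise NNReal ENNReal

namespace Pool.Agent.Helper95.Hull

/-! ### A functional equation -/

theorem mono_period {h : ℝ → ℝ} (hmono : Monotone h) {b : ℕ → ℝ}
    (hb : ∀ n : ℕ, 1 ≤ n → ∀ s, h (s + b n) = h s + Real.log n) :
    ∃ α C : ℝ, 0 < α ∧ ∀ s, h s = α * s + C := by
  have hlog2 : 0 < Real.log 2 := Real.log_pos (by norm_num)
  have hb2 : ∀ s, h (s + b 2) = h s + Real.log 2 := by
    intro s
    have := hb 2 (by norm_num) s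
    exact_mod_cast this
  have hb2pos : 0 < b 2 := by
    by_contra hcon
    push Not at hcon
    have h1 := hb2 0
    have h2 : h (0 + b 2) ≤ h 0 := hmono (by linarith)
    linarith
  set α : ℝ := Real.log 2 / b 2 with hα
  have hα0 : 0 < α := div_pos hlog2 hb2pos
  have hαb : α * b 2 = Real.log 2 := by rw [hα]; field_simp
  -- iteration
  have iter : ∀ n : ℕ, 1 ≤ n → ∀ k : ℕ, ∀ s, h (s + k * b n) = h s + k * Real.log n := by
    intro n hn k
    induction k with
    | zero => intro s; simp
    | succ k ih =>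
      intro s
      have e : s + ((k + 1 : ℕ) : ℝ) * b n = (s + k * b n) + b n := by push_cast; ring
      rw [e, hb n hn, ih]; push_cast; ring
  have iter2 : ∀ j : ℤ, h (j * b 2) = h 0 + j * Real.log 2 := by
    intro j
    rcases Int.eq_nat_or_neg j with ⟨k, rfl | rfl⟩
    · have := iter 2 (by norm_num) k 0
      rw [zero_add] at this
      exact_mod_cast this
    · have := iter 2 (by norm_num) k (-(k : ℝ) * b 2)
      rw [show -(k : ℝ) * b 2 + k * b 2 = 0 by ring] at this
      push_cast at this ⊢
      linarith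
  -- boundedness
  have hbound : ∀ s, |h s - α * s - h 0| ≤ Real.log 2 := by
    intro s
    set j : ℤ := ⌊s / b 2⌋ with hj
    have h1 : (j : ℝ) * b 2 ≤ s := by
      rw [← le_div_iff₀ hb2pos]; exact Int.floor_le _
    have h2 : s ≤ ((j + 1 : ℤ) : ℝ) * b 2 := by
      rw [← div_le_iff₀ hb2pos]; push_cast; exact (Int.lt_floor_add_one _).le
    have h3 := hmono h1
    have h4 := hmono h2
    rw [iter2] at h3 h4
    push_cast at h2 h4
    have h5 : α * s ≤ (j + 1) * Real.log 2 := by
      rw [← hαb]
      nlinarith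
    have h6 : j * Real.log 2 ≤ α * s := by
      rw [← hαb]
      nlinarith
    rw [abs_le]
    constructor <;> nlinarith
  -- the periods
  have hper : ∀ n : ℕ, 1 ≤ n → Real.log n = α * b n := by
    intro n hn
    by_contra hne
    set D : ℝ := Real.log n - α * b n with hD
    have hD0 : D ≠ 0 := sub_ne_zero.mpr hne
    have hk : ∀ k : ℕ, |(k : ℝ) * D| ≤ 2 * Real.log 2 := by
      intro k
      have h1 := iter n hn k 0
      have h2 := hbound (0 + k * b n)
      have h3 := hbound 0
      rw [h1] at h2
      rw [abs_le] at h2 h3 ⊢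
      rw [hD]
      constructor <;> nlinarith [h2.1, h2.2, h3.1, h3.2]
    obtain ⟨k, hk'⟩ := exists_nat_gt (2 * Real.log 2 / |D|)
    have h1 := hk k
    rw [abs_mul, Nat.abs_cast] at h1
    rw [div_lt_iff₀ (abs_pos.mpr hD0)] at hk'
    linarith
  -- `φ = h - α s` is constant
  have hφ : ∀ (n m : ℕ), 1 ≤ n → 1 ≤ m → ∀ s, h (s + (Real.log n - Real.log m) / α) = h s + (Real.log n - Real.log m) := by
    intro n m hn hm s
    have h1 := hb n hn s
    have h2 := hb m hm (s + (Real.log n - Real.log m) / α)
    have e1 : b n = Real.log n / α := by rw [hper n hn]; field_simp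
    have e2 : b m = Real.log m / α := by rw [hper m hm]; field_simp
    rw [e1] at h1
    rw [e2] at h2
    have e3 : s + (Real.log n - Real.log m) / α + Real.log m / α = s + Real.log n / α := by field_simp; ring
    rw [e3, h1] at h2
    linarith
  have hdense : ∀ x y : ℝ, x < y → ∃ n m : ℕ, 1 ≤ n ∧ 1 ≤ m ∧ x < (Real.log n - Real.log m) / α ∧ (Real.log n - Real.log m) / α < y := by
    intro x y hxy
    have h1 : Real.exp (α * x) < Real.exp (α * y) := Real.exp_lt_exp.mpr (mul_lt_mul_of_pos_left hxy hα0)
    obtain ⟨q, hq1, hq2⟩ := exists_rat_btwn h1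
    have hq0 : (0 : ℝ) < q := (Real.exp_pos _).trans hq1
    have hq0' : 0 < q := by exact_mod_cast hq0
    have hnum : 0 < q.num := Rat.num_pos.mpr hq0'
    have hqe : (q : ℝ) = (q.num.toNat : ℝ) / q.den := by
      have h2 : ((q.num.toNat : ℤ) : ℝ) = (q.num : ℝ) := by
        rw [Int.toNat_of_nonneg hnum.le]
      have h3 : (q : ℝ) = (q.num : ℝ) / q.den := by exact_mod_cast (Rat.num_div_den q).symm
      rw [h3, ← h2, Int.cast_natCast]
    have hn1 : 1 ≤ q.num.toNat := by omega
    have hn1' : (0 : ℝ) < (q.num.toNat : ℝ) := by exact_mod_cast hn1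
    have hd1 : (0 : ℝ) < (q.den : ℝ) := by exact_mod_cast q.den_pos
    refine ⟨q.num.toNat, q.den, hn1, q.den_pos, ?_, ?_⟩
    · rw [← Real.log_div hn1'.ne' hd1.ne', ← hqe, lt_div_iff₀ hα0, Real.lt_log_iff_exp_lt hq0]
      rw [mul_comm]; exact hq1
    · rw [← Real.log_div hn1'.ne' hd1.ne', ← hqe, div_lt_iff₀ hα0, Real.log_lt_iff_lt_exp hq0]
      rw [mul_comm y]; exact hq2
  have hle : ∀ s t : ℝ, h s - α * s ≤ h t - α * t := by
    intro s t
    apply le_of_forall_pos_le_add
    intro δ hδ
    obtain ⟨n, m, hn, hm, h1, h2⟩ := hdense (t - s - δ / α) (t - s) (by have := div_pos hδ hα0; linarith)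
    have h3 := hφ n m hn hm s
    have h4 := hmono (show s + (Real.log n - Real.log m) / α ≤ t by linarith)
    rw [h3] at h4
    have h5 : α * (t - s - δ / α) < Real.log n - Real.log m := by
      rw [lt_div_iff₀ hα0] at h1; linarith
    have h6 : α * (t - s - δ / α) = α * t - α * s - δ := by field_simp
    linarith
  refine ⟨α, h 0, hα0, fun s => ?_⟩
  have h1 := hle s 0
  have h2 := hle 0 s
  rw [mul_zero, sub_zero] at h1 h2
  linarith

/-- Antitone solutions of `L (x / a n) = n L x`. -/
theorem power_law {L : ℝ → ℝ} (hpos : ∀ x, 0 < x → 0 < L x) (hanti : ∀ x y, 0 < x → x ≤ y → L y ≤ L x)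
    {a : ℕ → ℝ} (ha : ∀ n, 1 ≤ n → 0 < a n) (hL : ∀ n, 1 ≤ n → ∀ x, 0 < x → L (x / a n) = n * L x) :
    ∃ α C : ℝ, 0 < α ∧ 0 < C ∧ ∀ x, 0 < x → L x = C * x ^ (-α) := by
  obtain ⟨α, C, hα, hC⟩ := mono_period (h := fun s => Real.log (L (Real.exp (-s)))) (b := fun n => Real.log (a n))
    (by
      intro s t hst
      apply Real.log_le_log (hpos _ (Real.exp_pos _))
      exact hanti _ _ (Real.exp_pos _) (Real.exp_le_exp.mpr (by linarith)))
    (by
      intro n hn s
      have e : Real.exp (-(s + Real.log (a n))) = Real.exp (-s) / a n := by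
        rw [neg_add, Real.exp_add, Real.exp_neg (Real.log (a n)), Real.exp_log (ha n hn), div_eq_mul_inv]
      show Real.log (L (Real.exp (-(s + Real.log (a n))))) = _
      rw [e, hL n hn _ (Real.exp_pos _), Real.log_mul, add_comm]
      · have : (0 : ℝ) < n := by exact_mod_cast hn
        exact this.ne'
      · exact (hpos _ (Real.exp_pos _)).ne')
  refine ⟨α, Real.exp C, hα, Real.exp_pos _, fun x hx => ?_⟩
  have h1 := hC (-Real.log x)
  simp only [neg_neg, Real.exp_log hx] at h1
  have h2 : L x = Real.exp (α * -Real.log x + C) := by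
    rw [← h1, Real.exp_log (hpos x hx)]
  rw [h2, Real.exp_add, Real.rpow_def_of_pos hx, mul_comm]
  congr 2
  ring

/-! ### One-dimensional laws -/

section OneDim
variable {R : Measure ℝ} [IsProbabilityMeasure R]

theorem eq_dirac_of_cdf {m : ℝ} (h0 : ∀ r, r < m → cdf R r = 0) (h1 : ∀ r, m < r → cdf R r = 1) : R = Measure.dirac m := by
  apply Measure.eq_of_cdf
  ext r
  rcases lt_trichotomy r m with h | h | h
  · rw [h0 r h, cdf_eq_real, Measure.real, Measure.dirac_apply' _ measurableSet_Iic]
    simp [h]
  · subst h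
    have hr := (cdf R).right_continuous r
    have h2 : cdf R r = 1 := by
      have h3 : Tendsto (cdf R) (𝓝[>] r) (𝓝 (cdf R r)) := hr.tendsto.mono_left (nhdsWithin_mono _ Set.Ioi_subset_Ici_self)
      have h4 : Tendsto (cdf R) (𝓝[>] r) (𝓝 1) := by
        apply tendsto_const_nhds.congr'
        filter_upwards [self_mem_nhdsWithin] with y hy
        exact (h1 y hy).symm
      exact tendsto_nhds_unique h3 h4
    rw [h2, cdf_eq_real, Measure.real, Measure.dirac_apply' _ measurableSet_Iic]
    simp
  · rw [h1 r h, cdf_eq_real, Measure.real, Measure.dirac_apply' _ measurableSet_Iic]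
    simp [h.le]

/-- Affinely max-stable laws on the positive half-line. -/
theorem nonneg_law (hneg : ∀ r, r < 0 → cdf R r = 0) {a k : ℕ → ℝ} (ha : ∀ n, 1 ≤ n → 0 < a n)
    (h : ∀ n, 1 ≤ n → ∀ r, cdf R (r / a n) = cdf R (r - k n) ^ n) :
    (∃ m, R = Measure.dirac m) ∨ ∃ m C α : ℝ, 0 ≤ m ∧ 0 < C ∧ 0 < α ∧ (∀ n, 1 ≤ n → k n = (a n - 1) * m) ∧
      ∀ r, cdf R r = if m < r then Real.exp (-(C * (r - m) ^ (-α))) else 0 := by
  set F := cdf R with hF
  have hmono : Monotone F := monotone_cdf R
  have htop : Tendsto F atTop (𝓝 1) := tendsto_cdf_atTop R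
  have hnn : ∀ r, 0 ≤ F r := cdf_nonneg R
  have hle1 : ∀ r, F r ≤ 1 := cdf_le_one R
  set S : Set ℝ := {r | 0 < F r} with hS
  have hSne : S.Nonempty := by
    obtain ⟨r, hr⟩ := (htop.eventually (lt_mem_nhds (by norm_num : (0 : ℝ) < 1))).exists
    exact ⟨r, hr⟩
  have hSb : BddBelow S := ⟨0, fun r hr => by
    by_contra hcon
    push Not at hcon
    have h1 : 0 < F r := hr
    rw [hneg r hcon] at h1
    exact lt_irrefl _ h1⟩
  set m : ℝ := sInf S with hm
  have hm0 : 0 ≤ m := by
    apply le_csInf hSne
    intro r hr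
    by_contra hcon
    push Not at hcon
    have h1 : 0 < F r := hr
    rw [hneg r hcon] at h1
    exact lt_irrefl _ h1
  have hgt : ∀ r, m < r → 0 < F r := by
    intro r hr
    obtain ⟨s, hs, hsr⟩ := exists_lt_of_csInf_lt hSne hr
    exact lt_of_lt_of_le hs (hmono hsr.le)
  have hge : ∀ r, 0 < F r → m ≤ r := fun r hr => csInf_le hSb hr
  have hlt : ∀ r, r < m → F r = 0 := by
    intro r hr
    by_contra hcon
    have h1 : 0 < F r := lt_of_le_of_ne (hnn r) (Ne.symm hcon)
    linarith [hge r h1]
  have hk : ∀ n, 1 ≤ n → k n = (a n - 1) * m := by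
    intro n hn
    have han := ha n hn
    have h1 : m + k n ≤ a n * m := by
      apply le_of_forall_pos_le_add
      intro δ hδ
      have h2 : m < (a n * m + δ) / a n := by
        rw [lt_div_iff₀ han]; linarith
      have h3 := hgt _ h2
      rw [h n hn] at h3
      have h4 : 0 < F (a n * m + δ - k n) := by
        by_contra hcon
        push Not at hcon
        have h5 : F (a n * m + δ - k n) = 0 := le_antisymm hcon (hnn _)
        rw [h5, zero_pow (by omega)] at h3
        exact lt_irrefl _ h3
      have h5 := hge _ h4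
      linarith
    have h2 : a n * m ≤ m + k n := by
      apply le_of_forall_pos_le_add
      intro δ hδ
      have h3 : 0 < F (m + k n + δ - k n) := hgt _ (by linarith)
      have h4 : 0 < F ((m + k n + δ) / a n) := by
        rw [h n hn]; exact pow_pos h3 n
      have h5 := hge _ h4
      rw [le_div_iff₀ han] at h5
      linarith
    linarith
  -- centred equation
  have hG : ∀ n, 1 ≤ n → ∀ x, F (m + x / a n) = F (m + x) ^ n := by
    intro n hn x
    have han := ha n hn
    have h1 := h n hn (a n * m + x)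
    have e1 : (a n * m + x) / a n = m + x / a n := by field_simp
    have e2 : a n * m + x - k n = m + x := by rw [hk n hn]; ring
    rw [e1, e2] at h1
    exact h1
  set L : ℝ → ℝ := fun x => -Real.log (F (m + x)) with hLdef
  have hL0 : ∀ x, 0 < x → 0 ≤ L x := by
    intro x hx
    have := Real.log_nonpos (hnn (m + x)) (hle1 _)
    show 0 ≤ -Real.log (F (m + x))
    linarith
  have hLanti : ∀ x y, 0 < x → x ≤ y → L y ≤ L x := by
    intro x y hx hxy
    have := Real.log_le_log (hgt (m + x) (by linarith)) (hmono (by linarith : m + x ≤ m + y))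
    show -Real.log (F (m + y)) ≤ -Real.log (F (m + x))
    linarith
  have hLn : ∀ n, 1 ≤ n → ∀ x, 0 < x → L (x / a n) = n * L x := by
    intro n hn x hx
    show -Real.log (F (m + x / a n)) = n * -Real.log (F (m + x))
    rw [hG n hn, Real.log_pow]; ring
  have hexp : ∀ x, 0 < x → F (m + x) = Real.exp (-L x) := by
    intro x hx
    show F (m + x) = Real.exp (- -Real.log (F (m + x)))
    rw [neg_neg, Real.exp_log (hgt _ (by linarith))]
  by_cases hzero : ∃ x, 0 < x ∧ L x = 0
  · left
    refine ⟨m, eq_dirac_of_cdf hlt ?_⟩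
    have hall : ∀ y, 0 < y → L y = 0 := by
      obtain ⟨x, hx, hLx⟩ := hzero
      intro y hy
      have ha2 := ha 2 (by norm_num)
      rcases le_or_gt (a 2) 1 with h2 | h2
      · have h3 := hLn 2 (by norm_num) y hy
        have h4 : y ≤ y / a 2 := by
          rw [le_div_iff₀ ha2]; nlinarith
        have h5 := hLanti y (y / a 2) hy h4
        have h6 := hL0 y hy
        push_cast at h3
        linarith
      · have hiter : ∀ j : ℕ, L (x / a 2 ^ j) = 0 := by
          intro j
          induction j with
          | zero => rw [pow_zero, div_one]; exact hLx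
          | succ j ih =>
            have h3 := hLn 2 (by norm_num) (x / a 2 ^ j) (by positivity)
            rw [ih, mul_zero] at h3
            have e : x / a 2 ^ (j + 1) = x / a 2 ^ j / a 2 := by rw [pow_succ]; field_simp
            rw [e]; exact h3
        obtain ⟨j, hj⟩ := pow_unbounded_of_one_lt (x / y) h2
        have h3 : x / a 2 ^ j ≤ y := by
          rw [div_lt_iff₀ hy] at hj
          rw [div_le_iff₀ (by positivity)]
          linarith
        have h4 := hLanti (x / a 2 ^ j) y (by positivity) h3
        rw [hiter j] at h4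
        exact le_antisymm h4 (hL0 y hy)
    intro r hr
    have h1 := hexp (r - m) (by linarith)
    rw [hall (r - m) (by linarith), neg_zero, Real.exp_zero] at h1
    rw [show r = m + (r - m) by ring]; exact h1
  · right
    push Not at hzero
    have hLpos : ∀ x, 0 < x → 0 < L x := fun x hx => lt_of_le_of_ne (hL0 x hx) (Ne.symm (hzero x hx))
    obtain ⟨α, C, hα, hC, hpow⟩ := power_law hLpos hLanti ha hLn
    have hval : ∀ x, 0 < x → F (m + x) = Real.exp (-(C * x ^ (-α))) := by
      intro x hx
      rw [hexp x hx, hpow x hx]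
    refine ⟨m, C, α, hm0, hC, hα, hk, ?_⟩
    have hFm : F m = 0 := by
      -- the distribution function vanishes at `m`
      have h1 := hG 2 (by norm_num) 0
      rw [zero_div, add_zero] at h1
      -- right limit
      have h2 : Tendsto (fun x : ℝ => Real.exp (-(C * x ^ (-α)))) (𝓝[>] 0) (𝓝 0) := by
        apply Real.tendsto_exp_atBot.comp
        apply Filter.tendsto_neg_atTop_atBot.comp
        apply Tendsto.const_mul_atTop hC
        have h3 : Tendsto (fun x : ℝ => (x⁻¹) ^ α) (𝓝[>] 0) atTop :=
          (tendsto_rpow_atTop hα).comp tendsto_inv_nhdsGT_zero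
        apply h3.congr'
        filter_upwards [self_mem_nhdsWithin] with x hx
        have hx' : (0 : ℝ) < x := hx
        rw [Real.inv_rpow hx'.le, Real.rpow_neg hx'.le]
      have h3 : Tendsto (fun x : ℝ => F (m + x)) (𝓝[>] 0) (𝓝 (F m)) := by
        have h4 := (F.right_continuous m).tendsto
        have h5 : Tendsto (fun x : ℝ => m + x) (𝓝[>] 0) (𝓝[≥] m) := by
          apply tendsto_nhdsWithin_of_tendsto_nhds_of_eventually_within
          · have : Tendsto (fun x : ℝ => m + x) (𝓝 0) (𝓝 (m + 0)) := tendsto_const_nhds.add tendsto_id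
            rw [add_zero] at this
            exact this.mono_left nhdsWithin_le_nhds
          · filter_upwards [self_mem_nhdsWithin] with x hx
            have hx' : (0 : ℝ) < x := hx
            show m ≤ m + x
            linarith
        exact h4.comp h5
      have h6 : Tendsto (fun x : ℝ => F (m + x)) (𝓝[>] 0) (𝓝 0) := by
        apply h2.congr'
        filter_upwards [self_mem_nhdsWithin] with x hx
        exact (hval x hx).symm
      exact tendsto_nhds_unique h3 h6
    intro r
    split_ifs with hr
    · have := hval (r - m) (by linarith)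
      rw [show m + (r - m) = r by ring] at this
      exact this
    · push Not at hr
      rcases hr.eq_or_lt with h1 | h1
      · rw [h1]; exact hFm
      · exact hlt r h1

/-- Affinely max-stable laws on the negative half-line with nonpositive shifts. -/
theorem nonpos_law (hpos : ∀ r, 0 ≤ r → cdf R r = 1) {a k : ℕ → ℝ} (ha : ∀ n, 1 ≤ n → 0 < a n)
    (hk : ∀ n, 1 ≤ n → k n ≤ 0) (h : ∀ n, 1 ≤ n → ∀ r, cdf R (r / a n) = cdf R (r - k n) ^ n) :
    (∃ m, R = Measure.dirac m) ∨ ∀ n, 1 ≤ n → k n = 0 := by
  set F := cdf R with hF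
  have hmono : Monotone F := monotone_cdf R
  have hnn : ∀ r, 0 ≤ F r := cdf_nonneg R
  have hle1 : ∀ r, F r ≤ 1 := cdf_le_one R
  have hbot : Tendsto F atBot (𝓝 0) := tendsto_cdf_atBot R
  set S : Set ℝ := {r | F r = 1} with hS
  have hSne : S.Nonempty := ⟨0, hpos 0 le_rfl⟩
  have hSb : BddBelow S := by
    obtain ⟨r, hr⟩ := (hbot.eventually (gt_mem_nhds (by norm_num : (0 : ℝ) < 1))).exists
    refine ⟨r, fun s hs => ?_⟩
    by_contra hcon
    push Not at hcon
    have h1 : F s = 1 := hs
    have h2 := hmono hcon.le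
    linarith
  set M : ℝ := sInf S with hM
  have hM0 : M ≤ 0 := csInf_le hSb (hpos 0 le_rfl)
  have hgt : ∀ r, M < r → F r = 1 := by
    intro r hr
    obtain ⟨s, hs, hsr⟩ := exists_lt_of_csInf_lt hSne hr
    have h1 : F s = 1 := hs
    exact le_antisymm (hle1 r) (h1 ▸ hmono hsr.le)
  have hge : ∀ r, F r = 1 → M ≤ r := fun r hr => csInf_le hSb hr
  have hkM : ∀ n, 1 ≤ n → k n = (a n - 1) * M := by
    intro n hn
    have han := ha n hn
    have h1 : M + k n ≤ a n * M := by
      apply le_of_forall_pos_le_add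
      intro δ hδ
      have h2 : M < (a n * M + δ) / a n := by
        rw [lt_div_iff₀ han]; linarith
      have h3 := hgt _ h2
      rw [h n hn] at h3
      have h4 : F (a n * M + δ - k n) = 1 := by
        apply le_antisymm (hle1 _)
        by_contra hcon
        push Not at hcon
        have := pow_lt_one₀ (hnn _) hcon (by omega : n ≠ 0)
        linarith
      have h5 := hge _ h4
      linarith
    have h2 : a n * M ≤ M + k n := by
      apply le_of_forall_pos_le_add
      intro δ hδ
      have h3 : F (M + k n + δ - k n) = 1 := hgt _ (by linarith)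
      have h4 : F ((M + k n + δ) / a n) = 1 := by
        rw [h n hn, h3, one_pow]
      have h5 := hge _ h4
      rw [le_div_iff₀ han] at h5
      linarith
    linarith
  rcases hM0.eq_or_lt with hM1 | hM1
  · right
    intro n hn
    rw [hkM n hn, hM1, mul_zero]
  · left
    refine ⟨M, eq_dirac_of_cdf ?_ hgt⟩
    intro r hr
    have ha2 := ha 2 (by norm_num)
    have hk2 := hk 2 (by norm_num)
    rw [hkM 2 (by norm_num)] at hk2
    have ha21 : 1 ≤ a 2 := by
      by_contra hcon
      push Not at hcon
      have : 0 < (a 2 - 1) * M := mul_pos_of_neg_of_neg (by linarith) hM1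
      linarith
    have h1 := h 2 (by norm_num) (a 2 * r)
    have e1 : a 2 * r / a 2 = r := by field_simp
    rw [e1, hkM 2 (by norm_num)] at h1
    have h2 : a 2 * r - (a 2 - 1) * M ≤ r := by nlinarith
    have h3 := hmono h2
    have h4 : F r < 1 := by
      by_contra hcon
      push Not at hcon
      have := hge r (le_antisymm (hle1 r) hcon)
      linarith
    have h5 := hnn (a 2 * r - (a 2 - 1) * M)
    have h6 := hnn r
    nlinarith

end OneDim

end Pool.Agent.Helper95.Hull
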