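import Mathlib
import Pool.Agent.Lib.Helper95.Hull.Key
import Pool.Agent.Lib.Helper95.Hull.OneDim
open MeasureTheory ProbabilityTheory Finset Filter Topology Set
open scoped Pointwise NNReal ENNReal

namespace Pool.Agent.Helper95.Hull

/-- Strictly max-stable laws. -/
def MaxStable {d : ℕ} (Q : Measure (Fin d → ℝ)) : Prop :=
  ∀ n : ℕ, 1 ≤ n → ∃ a : ℝ, 0 < a ∧ Q.map (fun x => a • x) = (Measure.pi (fun _ : Fin n => Q)).map mx

section Meas
variable {d : ℕ}

theorem measurable_red : Measurable (red (d := d)) := by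
  classical
  have e : red (d := d) = fun x => if ∃ i, 0 ≤ x i then (fun i => max (x i) 0) else x := by
    funext x; unfold red; congr
  rw [e]
  apply Measurable.ite
  · have : {x : Fin d → ℝ | ∃ i, 0 ≤ x i} = ⋃ i, {x | 0 ≤ x i} := by ext x; simp
    rw [this]
    exact MeasurableSet.iUnion (fun i => measurableSet_le measurable_const (measurable_pi_apply i))
  · exact measurable_pi_lambda _ (fun i => (measurable_pi_apply i).max measurable_const)
  · exact measurable_id

theorem measurable_mx {n : ℕ} : Measurable (mx (n := n) (d := d)) := by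
  apply measurable_pi_lambda
  intro i
  apply Measurable.iSup
  intro j
  exact (measurable_pi_apply i).comp (measurable_pi_apply j)

theorem continuous_sup [Nonempty (Fin d)] : Continuous (fun p : (Fin d → ℝ) × (Fin d → ℝ) => sup p.1 p.2) := by
  have e : (fun p : (Fin d → ℝ) × (Fin d → ℝ) => sup p.1 p.2) =
      fun p => Finset.univ.sup' Finset.univ_nonempty (fun i => p.1 i * p.2 i) := by
    funext p
    unfold sup
    rw [Finset.sup'_univ_eq_ciSup]
  rw [e]
  apply Continuous.finset_sup'_apply
  intro i _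
  fun_prop

theorem le_red (x : Fin d → ℝ) (i : Fin d) : x i ≤ red x i := by
  unfold red
  split_ifs
  · exact le_max_left _ _
  · exact le_rfl

theorem red_le (x : Fin d → ℝ) (i : Fin d) : red x i ≤ max (x i) 0 := by
  unfold red
  split_ifs
  · exact le_rfl
  · exact le_max_left _ _

theorem red_smul {a : ℝ} (ha : 0 < a) (x : Fin d → ℝ) : red (a • x) = a • red x := by
  have hiff : (∃ i, 0 ≤ (a • x) i) ↔ ∃ i, 0 ≤ x i := by
    constructor
    · rintro ⟨i, hi⟩
      exact ⟨i, nonneg_of_mul_nonneg_right hi ha⟩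
    · rintro ⟨i, hi⟩
      exact ⟨i, mul_nonneg ha.le hi⟩
  unfold red
  by_cases h : ∃ i, 0 ≤ x i
  · rw [if_pos h, if_pos (hiff.mpr h)]
    ext i
    simp only [Pi.smul_apply, smul_eq_mul]
    rw [mul_max_of_nonneg _ _ ha.le, mul_zero]
  · rw [if_neg h, if_neg (fun h' => h (hiff.mp h'))]

theorem red_mx {n : ℕ} [Nonempty (Fin n)] (xs : Fin n → Fin d → ℝ) : red (mx xs) = mx (fun j => red (xs j)) := by
  ext i
  by_cases h : ∃ l, 0 ≤ mx xs l
  · have e : red (mx xs) = fun i => max (mx xs i) 0 := by unfold red; rw [if_pos h]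
    rw [e]
    apply le_antisymm
    · apply max_le
      · obtain ⟨j, hj⟩ := exists_mx_eq xs i
        rw [hj]
        exact (le_red (xs j) i).trans (le_mx (fun j => red (xs j)) j i)
      · obtain ⟨l, hl⟩ := h
        obtain ⟨j, hj⟩ := exists_mx_eq xs l
        rw [hj] at hl
        have h1 : red (xs j) i = max (xs j i) 0 := by
          have : ∃ l, 0 ≤ xs j l := ⟨l, hl⟩
          unfold red; rw [if_pos this]
        have h2 : 0 ≤ red (xs j) i := by rw [h1]; exact le_max_right _ _
        exact h2.trans (le_mx (fun j => red (xs j)) j i)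
    · obtain ⟨j, hj⟩ := exists_mx_eq (fun j => red (xs j)) i
      rw [hj]
      refine (red_le (xs j) i).trans ?_
      exact max_le_max (le_mx xs j i) le_rfl
  · have e : red (mx xs) = mx xs := by unfold red; rw [if_neg h]
    rw [e]
    push Not at h
    have h1 : ∀ j, red (xs j) = xs j := by
      intro j
      have : ¬ ∃ l, 0 ≤ xs j l := by
        push Not
        intro l
        exact lt_of_le_of_lt (le_mx xs j l) (h l)
      unfold red; rw [if_neg this]
    simp_rw [h1]

theorem sup_mx_le_iff [Nonempty (Fin d)] {n : ℕ} [Nonempty (Fin n)] (xs : Fin n → Fin d → ℝ) {u : Fin d → ℝ} (hu : Non u)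
    (c : ℝ) : sup (mx xs) u ≤ c ↔ ∀ j, sup (xs j) u ≤ c := by
  rw [sup_le_iff]
  constructor
  · intro h j
    apply sup_le
    intro i
    exact (mul_le_mul_of_nonneg_right (le_mx xs j i) (hu i)).trans (h i)
  · intro h i
    obtain ⟨j, hj⟩ := exists_mx_eq xs i
    rw [hj]
    exact (le_sup (xs j) u i).trans (h j)

/-- Rational points of the orthant. -/
noncomputable def uu (q : (Fin d → ℕ) × ℕ) : Fin d → ℝ := fun i => (q.1 i : ℝ) / q.2

theorem non_uu (q : (Fin d → ℕ) × ℕ) : Non (uu q) := fun i => by unfold uu; positivity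

theorem eq_of_uu {f g : (Fin d → ℝ) → ℝ} (hf : Continuous f) (hg : Continuous g) (h : ∀ q, f (uu q) = g (uu q))
    {u : Fin d → ℝ} (hu : Non u) : f u = g u := by
  have hlim : Tendsto (fun m : ℕ => uu (d := d) (fun i => ⌊u i * m⌋₊, m)) atTop (𝓝 u) := by
    rw [tendsto_pi_nhds]
    intro i
    have h1 := tendsto_nat_floor_mul_div_atTop (hu i)
    exact h1.comp tendsto_natCast_atTop_atTop
  have h1 := (hf.tendsto u).comp hlim
  have h2 := (hg.tendsto u).comp hlim
  have e : (f ∘ fun m : ℕ => uu (d := d) (fun i => ⌊u i * m⌋₊, m)) = (g ∘ fun m : ℕ => uu (d := d) (fun i => ⌊u i * m⌋₊, m)) := by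
    funext m
    exact h _
  rw [e] at h1
  exact tendsto_nhds_unique h1 h2

/-- The support function on the rational points. -/
noncomputable def FF (x : Fin d → ℝ) : ((Fin d → ℕ) × ℕ) → ℝ := fun q => sup x (uu q)

variable [Nonempty (Fin d)]

theorem continuous_FF : Continuous (FF (d := d)) := by
  apply continuous_pi
  intro q
  exact continuous_sup.comp (continuous_id.prodMk continuous_const)

/-- The reduced vectors. -/
def TT : Set (Fin d → ℝ) := {x | Non x ∨ Neg x}

omit [Nonempty (Fin d)] in
theorem measurableSet_TT : MeasurableSet (TT (d := d)) := by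
  have e : TT (d := d) = (⋂ i, {x | 0 ≤ x i}) ∪ (⋂ i, {x | x i < 0}) := by
    ext x; simp [TT, Non, Neg]
  rw [e]
  exact (MeasurableSet.iInter (fun i => measurableSet_le measurable_const (measurable_pi_apply i))).union
    (MeasurableSet.iInter (fun i => measurableSet_lt (measurable_pi_apply i) measurable_const))

theorem FF_injOn : Set.InjOn (FF (d := d)) TT := by
  intro x hx y hy hxy
  have h : ∀ u, Non u → sup x u = sup y u := by
    intro u hu
    apply eq_of_uu (f := fun u => sup x u) (g := fun u => sup y u) _ _ _ hu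
    · exact continuous_sup.comp (continuous_const.prodMk continuous_id)
    · exact continuous_sup.comp (continuous_const.prodMk continuous_id)
    · intro q; exact congrFun hxy q
  have hone : Non (fun _ : Fin d => (1 : ℝ)) := fun _ => by norm_num
  rcases hx with hx | hx <;> rcases hy with hy | hy
  · ext j
    have h1 := h (Pi.single j 1) (non_single (by norm_num))
    rw [sup_single_non hx j (by norm_num), sup_single_non hy j (by norm_num)] at h1
    linarith
  · exfalso
    have h1 := h _ hone
    have h2 := sup_one_neg hy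
    have h3 := sup_nonneg_of_non hx hone
    linarith
  · exfalso
    have h1 := h _ hone
    have h2 := sup_one_neg hx
    have h3 := sup_nonneg_of_non hy hone
    linarith
  · exact neg_inj hx hy h

theorem FF_red (x : Fin d → ℝ) : FF (red x) = FF x := by
  funext q
  exact sup_red x (non_uu q)

end Meas

/-! ### Consequences of the stability relation -/

section Laws
variable {d : ℕ} [Nonempty (Fin d)] {P : Measure (Fin d → ℝ)} [IsProbabilityMeasure P]
  {n : ℕ} [Nonempty (Fin n)] {a : ℝ} (ha : 0 < a) {K : Set (Fin d → ℝ)} (hK : IsCompact K) (hne : K.Nonempty)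
  (h : EqLaw P (fun x => a • hullSet x) (Measure.pi (fun _ : Fin n => P))
    (fun xs => closure (convexHull ℝ (⋃ j, hullSet (xs j))) + K))
include ha hK hne h

theorem eqLaw_FF {B : Set (((Fin d → ℕ) × ℕ) → ℝ)} (hB : MeasurableSet B) :
    P {x | FF (a • x) ∈ B} = Measure.pi (fun _ : Fin n => P) {xs | (fun q => FF (mx xs) q + supK K (uu q)) ∈ B} := by
  set Θ : Set (Fin d → ℝ) → ((Fin d → ℕ) × ℕ) → ℝ := fun A q => (hs A (uu q)).toReal with hΘ
  have hmeas : @Measurable _ _ (effros (Fin d → ℝ)) _ Θ := by
    let _ := effros (Fin d → ℝ)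
    apply measurable_pi_lambda
    intro q
    exact measurable_ereal_toReal.comp (measurable_hs (uu q))
  have h1 := h (Θ ⁻¹' B) (hmeas hB)
  have e1 : (fun x => a • hullSet x) ⁻¹' (Θ ⁻¹' B) = {x | FF (a • x) ∈ B} := by
    ext x
    have : Θ (a • hullSet x) = FF (a • x) := by
      funext q
      rw [hΘ, smul_hullSet ha]
      simp only
      rw [hs_hullSet _ (non_uu q), EReal.toReal_coe]
      rfl
    show Θ (a • hullSet x) ∈ B ↔ _
    rw [this]; rfl
  have e2 : (fun xs : Fin n → Fin d → ℝ => closure (convexHull ℝ (⋃ j, hullSet (xs j))) + K) ⁻¹' (Θ ⁻¹' B) =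
      {xs | (fun q => FF (mx xs) q + supK K (uu q)) ∈ B} := by
    ext xs
    have : Θ (closure (convexHull ℝ (⋃ j, hullSet (xs j))) + K) = fun q => FF (mx xs) q + supK K (uu q) := by
      funext q
      rw [hΘ, hull_union]
      simp only
      rw [hs_hullSet_add hK hne _ (non_uu q), EReal.toReal_coe]
      rfl
    show Θ (closure (convexHull ℝ (⋃ j, hullSet (xs j))) + K) ∈ B ↔ _
    rw [this]; rfl
  rw [e1, e2] at h1
  exact h1

theorem eqLaw_cdf {u : Fin d → ℝ} (hu : Non u) (r : ℝ) :
    cdf (P.map (fun x => sup x u)) (r / a) = cdf (P.map (fun x => sup x u)) (r - supK K u) ^ n := by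
  have hmsup : Measurable (fun x : Fin d → ℝ => sup x u) :=
    (continuous_sup.comp (continuous_id.prodMk continuous_const)).measurable
  have hprob : IsProbabilityMeasure (P.map (fun x => sup x u)) := Measure.isProbabilityMeasure_map hmsup.aemeasurable
  set S : Set (Set (Fin d → ℝ)) := {A | hs A u ≤ (r : EReal)} with hS
  have hSm : MeasurableSet[effros (Fin d → ℝ)] S := by
    let _ := effros (Fin d → ℝ)
    exact measurableSet_le (measurable_hs u) measurable_const
  have h1 := h S hSm
  have e1 : (fun x => a • hullSet x) ⁻¹' S = {x | sup x u ≤ r / a} := by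
    ext x
    show hs (a • hullSet x) u ≤ (r : EReal) ↔ sup x u ≤ r / a
    rw [smul_hullSet ha, hs_hullSet _ hu, EReal.coe_le_coe_iff, sup_smul ha.le, le_div_iff₀ ha, mul_comm]
  have e2 : (fun xs : Fin n → Fin d → ℝ => closure (convexHull ℝ (⋃ j, hullSet (xs j))) + K) ⁻¹' S =
      Set.pi Set.univ (fun _ : Fin n => {x | sup x u ≤ r - supK K u}) := by
    ext xs
    show hs (closure (convexHull ℝ (⋃ j, hullSet (xs j))) + K) u ≤ (r : EReal) ↔ _
    rw [hull_union, hs_hullSet_add hK hne _ hu, EReal.coe_le_coe_iff, ← le_sub_iff_add_le, sup_mx_le_iff xs hu]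
    simp
  rw [e1, e2, Measure.pi_pi, Finset.prod_const, Finset.card_univ, Fintype.card_fin] at h1
  rw [cdf_eq_real, cdf_eq_real, Measure.real, Measure.real, Measure.map_apply hmsup measurableSet_Iic,
    Measure.map_apply hmsup measurableSet_Iic, ← ENNReal.toReal_pow]
  congr 1

/-- Almost surely the shifted support function is again of the same form. -/
theorem ae_pair : ∀ᵐ xs ∂(Measure.pi (fun _ : Fin n => P)),
    ∃ y, (Non y ∨ Neg y) ∧ Pair (supK K) (red (mx xs)) y := by
  have himg : MeasurableSet (FF (d := d) '' TT) :=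
    measurableSet_TT.image_of_continuousOn_injOn continuous_FF.continuousOn FF_injOn
  have h1 := eqLaw_FF ha hK hne h himg
  have h2 : {x : Fin d → ℝ | FF (a • x) ∈ FF (d := d) '' TT} = Set.univ := by
    ext x
    simp only [Set.mem_univ, iff_true]
    exact ⟨red (a • x), red_type _, FF_red _⟩
  rw [h2, measure_univ] at h1
  have hmeas : Measurable (fun xs : Fin n → Fin d → ℝ => (fun q => FF (mx xs) q + supK K (uu q))) := by
    apply measurable_pi_lambda
    intro q
    exact (((measurable_pi_apply q).comp continuous_FF.measurable).comp measurable_mx).add_const _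
  have h3 : ∀ᵐ xs ∂(Measure.pi (fun _ : Fin n => P)), (fun q => FF (mx xs) q + supK K (uu q)) ∈ FF (d := d) '' TT := by
    rw [ae_iff]
    have h4 := (prob_compl_eq_zero_iff (μ := Measure.pi (fun _ : Fin n => P)) (hmeas himg)).mpr h1.symm
    exact h4
  filter_upwards [h3] with xs hxs
  obtain ⟨y, hy, hye⟩ := hxs
  refine ⟨y, hy, ?_⟩
  intro u hu
  rw [sup_red _ hu]
  apply eq_of_uu (f := fun u => sup (mx xs) u + supK K u) (g := fun u => sup y u) _ _ _ hu
  · exact (continuous_sup.comp (continuous_const.prodMk continuous_id)).add (supK_continuous hK hne)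
  · exact continuous_sup.comp (continuous_const.prodMk continuous_id)
  · intro q
    exact (congrFun hye q).symm

/-- No shift: the reduced law is strictly max-stable. -/
theorem maxStable_step (hzero : ∀ u, Non u → supK K u = 0) :
    (P.map red).map (fun x => a • x) = (Measure.pi (fun _ : Fin n => P.map red)).map mx := by
  have hred := measurable_red (d := d)
  have hpr : IsProbabilityMeasure (P.map red) := Measure.isProbabilityMeasure_map hred.aemeasurable
  have hpi : Measure.pi (fun _ : Fin n => P.map red) = (Measure.pi (fun _ : Fin n => P)).map (fun xs j => red (xs j)) :=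
    (Measure.pi_map_pi (fun _ => hred.aemeasurable)).symm
  have hsm : Measurable (fun x : Fin d → ℝ => a • x) := measurable_const_smul a
  have hredn : Measurable (fun (xs : Fin n → Fin d → ℝ) j => red (xs j)) :=
    measurable_pi_lambda _ (fun j => hred.comp (measurable_pi_apply j))
  ext B hB
  rw [Measure.map_apply hsm hB, Measure.map_apply hred (hsm hB), Measure.map_apply measurable_mx hB, hpi,
    Measure.map_apply hredn (measurable_mx hB)]
  have himg : MeasurableSet (FF (d := d) '' (B ∩ TT)) :=
    (hB.inter measurableSet_TT).image_of_continuousOn_injOn continuous_FF.continuousOn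
      (FF_injOn.mono Set.inter_subset_right)
  have hiff : ∀ z ∈ TT (d := d), (FF z ∈ FF (d := d) '' (B ∩ TT) ↔ z ∈ B) := by
    intro z hz
    constructor
    · rintro ⟨w, ⟨hwB, hwT⟩, hwe⟩
      rw [← FF_injOn hwT hz hwe]; exact hwB
    · intro hzB
      exact ⟨z, ⟨hzB, hz⟩, rfl⟩
  have h1 := eqLaw_FF ha hK hne h himg
  have e1 : {x : Fin d → ℝ | FF (a • x) ∈ FF (d := d) '' (B ∩ TT)} = red ⁻¹' ((fun x => a • x) ⁻¹' B) := by
    ext x
    show FF (a • x) ∈ FF (d := d) '' (B ∩ TT) ↔ a • red x ∈ B
    rw [← FF_red, hiff _ (red_type _), red_smul ha]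
  have e2 : {xs : Fin n → Fin d → ℝ | (fun q => FF (mx xs) q + supK K (uu q)) ∈ FF (d := d) '' (B ∩ TT)} =
      (fun (xs : Fin n → Fin d → ℝ) j => red (xs j)) ⁻¹' (mx ⁻¹' B) := by
    ext xs
    show (fun q => FF (mx xs) q + supK K (uu q)) ∈ FF (d := d) '' (B ∩ TT) ↔ mx (fun j => red (xs j)) ∈ B
    have : (fun q => FF (mx xs) q + supK K (uu q)) = FF (red (mx xs)) := by
      rw [FF_red]
      funext q
      rw [hzero _ (non_uu q), add_zero]
    rw [this, hiff _ (red_type _), red_mx]
  rw [e1, e2] at h1
  exact h1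

end Laws

end Pool.Agent.Helper95.Hull
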