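import Mathlib
import Pool.Agent.Lib.Helper95.Hull.Laws
open MeasureTheory ProbabilityTheory Finset Filter Topology Set
open scoped Pointwise NNReal ENNReal

namespace Pool.Agent.Helper95.Hull

/-! ### Laws of maxima -/

section MaxLaw
variable {R : Measure ℝ} [IsProbabilityMeasure R] {n : ℕ} [Nonempty (Fin n)]

omit [IsProbabilityMeasure R] [Nonempty (Fin n)] in
theorem measurable_max : Measurable (fun rs : Fin n → ℝ => ⨆ j, rs j) :=
  Measurable.iSup (fun j => measurable_pi_apply j)

theorem cdf_max (r : ℝ) : cdf ((Measure.pi (fun _ : Fin n => R)).map (fun rs => ⨆ j, rs j)) r = cdf R r ^ n := by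
  have hprob : IsProbabilityMeasure ((Measure.pi (fun _ : Fin n => R)).map (fun rs => ⨆ j, rs j)) :=
    Measure.isProbabilityMeasure_map measurable_max.aemeasurable
  rw [cdf_eq_real, cdf_eq_real, Measure.real, Measure.real, Measure.map_apply measurable_max measurableSet_Iic,
    ← ENNReal.toReal_pow]
  congr 1
  have e : (fun rs : Fin n → ℝ => ⨆ j, rs j) ⁻¹' Set.Iic r = Set.pi Set.univ (fun _ => Set.Iic r) := by
    ext rs
    simp only [Set.mem_preimage, Set.mem_Iic, Set.mem_pi, Set.mem_univ, forall_true_left]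
    exact ciSup_le_iff (Set.finite_range _).bddAbove
  rw [e, Measure.pi_pi, Finset.prod_const, Finset.card_univ, Fintype.card_fin]

theorem max_law {a : ℝ} (ha : 0 < a) (h : ∀ r, cdf R (r / a) = cdf R r ^ n) :
    R.map (fun r => a * r) = (Measure.pi (fun _ : Fin n => R)).map (fun rs => ⨆ j, rs j) := by
  have hm : Measurable (fun r : ℝ => a * r) := measurable_const_mul a
  have hprob : IsProbabilityMeasure ((Measure.pi (fun _ : Fin n => R)).map (fun rs => ⨆ j, rs j)) :=
    Measure.isProbabilityMeasure_map measurable_max.aemeasurable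
  have hprob' : IsProbabilityMeasure (R.map (fun r => a * r)) := Measure.isProbabilityMeasure_map hm.aemeasurable
  apply Measure.eq_of_cdf
  ext r
  rw [cdf_max, ← h r, cdf_eq_real, cdf_eq_real, Measure.real, Measure.real, Measure.map_apply hm measurableSet_Iic]
  congr 2
  ext s
  simp only [Set.mem_preimage, Set.mem_Iic]
  rw [le_div_iff₀ ha, mul_comm]

end MaxLaw

section Ray
variable {d : ℕ} {R : Measure ℝ} [IsProbabilityMeasure R] {n : ℕ} [Nonempty (Fin n)]

omit [IsProbabilityMeasure R] in
theorem mx_ray {w : Fin d → ℝ} (hw : Non w) (c : ℝ) (rs : Fin n → ℝ) :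
    mx (fun j => (c + rs j) • w) = (c + ⨆ j, rs j) • w := by
  obtain ⟨j₀, hj₀⟩ := exists_eq_ciSup_of_finite (f := rs)
  ext i
  apply le_antisymm
  · apply ciSup_le
    intro j
    simp only [Pi.smul_apply, smul_eq_mul]
    apply mul_le_mul_of_nonneg_right _ (hw i)
    have := le_ciSup (f := rs) (Set.finite_range _).bddAbove j
    linarith
  · rw [← hj₀]
    exact le_mx (fun j => (c + rs j) • w) j₀ i

theorem measurable_ray (w : Fin d → ℝ) (c : ℝ) : Measurable (fun r : ℝ => (c + r) • w) := by
  apply measurable_pi_lambda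
  intro i
  simp only [Pi.smul_apply, smul_eq_mul]
  fun_prop

/-- Laws on a ray. -/
theorem ray_lemma {w : Fin d → ℝ} (hw : Non w) (c : ℝ) {a : ℝ}
    (hR : R.map (fun r => a * r) = (Measure.pi (fun _ : Fin n => R)).map (fun rs => ⨆ j, rs j)) :
    (R.map (fun r => (c + r) • w)).map (fun x => a • x) =
      (Measure.pi (fun _ : Fin n => R.map (fun r => (c + r) • w))).map (fun zs => mx zs + ((a - 1) * c) • w) := by
  have hray := measurable_ray w c
  have hpr : IsProbabilityMeasure (R.map (fun r => (c + r) • w)) := Measure.isProbabilityMeasure_map hray.aemeasurable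
  have hsm : Measurable (fun x : Fin d → ℝ => a • x) := measurable_const_smul a
  have hpi : Measure.pi (fun _ : Fin n => R.map (fun r => (c + r) • w)) =
      (Measure.pi (fun _ : Fin n => R)).map (fun rs j => (c + rs j) • w) :=
    (Measure.pi_map_pi (fun _ => hray.aemeasurable)).symm
  have hrayn : Measurable (fun (rs : Fin n → ℝ) j => (c + rs j) • w) :=
    measurable_pi_lambda _ (fun j => hray.comp (measurable_pi_apply j))
  have hs : Measurable (fun s : ℝ => (a * c + s) • w) := measurable_ray w (a * c)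
  have hmul : Measurable (fun r : ℝ => a * r) := measurable_const_mul a
  have hmxc : Measurable (fun zs : Fin n → Fin d → ℝ => mx zs + ((a - 1) * c) • w) := measurable_mx.add_const _
  rw [Measure.map_map hsm hray, hpi, Measure.map_map hmxc hrayn]
  have e1 : (fun x : Fin d → ℝ => a • x) ∘ (fun r : ℝ => (c + r) • w) = (fun s : ℝ => (a * c + s) • w) ∘ (fun r => a * r) := by
    funext r
    simp only [Function.comp_apply, smul_smul]
    congr 1; ring
  have e2 : (fun zs : Fin n → Fin d → ℝ => mx zs + ((a - 1) * c) • w) ∘ (fun (rs : Fin n → ℝ) j => (c + rs j) • w) =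
      (fun s : ℝ => (a * c + s) • w) ∘ (fun rs => ⨆ j, rs j) := by
    funext rs
    simp only [Function.comp_apply]
    rw [mx_ray hw]
    rw [← add_smul]
    congr 1; ring
  rw [e1, e2, ← Measure.map_map hs hmul, ← Measure.map_map hs measurable_max, hR]

omit [IsProbabilityMeasure R] [Nonempty (Fin n)] in
theorem maxStable_dirac (z : Fin d → ℝ) : MaxStable (Measure.dirac z) := by
  intro n hn
  have : Nonempty (Fin n) := ⟨⟨0, hn⟩⟩
  refine ⟨1, one_pos, ?_⟩
  have e1 : (fun x : Fin d → ℝ => (1 : ℝ) • x) = id := by funext x; simp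
  rw [e1, Measure.map_id]
  have h1 : ∀ᵐ zs ∂(Measure.pi (fun _ : Fin n => Measure.dirac z)), mx zs = z := by
    have h2 : ∀ j : Fin n, ∀ᵐ zs ∂(Measure.pi (fun _ : Fin n => Measure.dirac z)), zs j = z := by
      intro j
      have h3 := (Measure.quasiMeasurePreserving_eval (fun _ : Fin n => Measure.dirac z) j).ae
        (p := fun x => x = z) (by rw [ae_dirac_eq]; rfl)
      exact h3
    filter_upwards [ae_all_iff.mpr h2] with zs hzs
    ext i
    obtain ⟨j, hj⟩ := exists_mx_eq zs i
    rw [hj, hzs j]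
  rw [Measure.map_congr h1]
  rw [Measure.map_const, measure_univ, one_smul]

end Ray

/-! ### The Fréchet law -/

section Frechet

/-- `R` is the Fréchet law with exponent `α`: its distribution function is `exp (-r^(-α))` for `r > 0`. -/
def IsFrechet (α : ℝ) (R : Measure ℝ) : Prop :=
  ∀ r, R (Set.Iic r) = ENNReal.ofReal (if 0 < r then Real.exp (-(r ^ (-α))) else 0)

theorem isFrechet_iff {α : ℝ} {R : Measure ℝ} [IsProbabilityMeasure R] :
    IsFrechet α R ↔ ∀ r, cdf R r = if 0 < r then Real.exp (-(r ^ (-α))) else 0 := by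
  have hnn : ∀ r : ℝ, 0 ≤ if 0 < r then Real.exp (-(r ^ (-α))) else 0 := by
    intro r
    split_ifs
    · positivity
    · exact le_rfl
  constructor
  · intro h r
    rw [cdf_eq_real, Measure.real, h r, ENNReal.toReal_ofReal (hnn r)]
  · intro h r
    rw [← h r, cdf_eq_real, Measure.real, ENNReal.ofReal_toReal (measure_ne_top _ _)]

variable {α : ℝ} (hα : 0 < α) {R : Measure ℝ} [IsProbabilityMeasure R] (hR : IsFrechet α R)
include hα hR

theorem frechet_max {n : ℕ} (hn : 1 ≤ n) [Nonempty (Fin n)] :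
    R.map (fun r => (n : ℝ) ^ (1 / α) * r) = (Measure.pi (fun _ : Fin n => R)).map (fun rs => ⨆ j, rs j) := by
  have hn0 : (0 : ℝ) < n := by exact_mod_cast hn
  have ha : 0 < (n : ℝ) ^ (1 / α) := Real.rpow_pos_of_pos hn0 _
  apply max_law ha
  intro r
  rw [isFrechet_iff] at hR
  rw [hR, hR]
  by_cases hr : 0 < r
  · rw [if_pos (div_pos hr ha), if_pos hr, ← Real.exp_nat_mul]
    congr 1
    rw [Real.div_rpow hr.le ha.le, ← Real.rpow_mul hn0.le]
    have e : 1 / α * -α = -1 := by field_simp
    rw [e, Real.rpow_neg_one]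
    field_simp
  · rw [if_neg hr, if_neg, zero_pow (by omega)]
    intro hcon
    exact hr ((div_pos_iff_of_pos_right ha).mp hcon)

omit hα [IsProbabilityMeasure R] in
theorem frechet_pos : ∀ᵐ r ∂(R), 0 < r := by
  have h0 := hR 0
  rw [if_neg (lt_irrefl _), ENNReal.ofReal_zero] at h0
  rw [ae_iff]
  have e : {r : ℝ | ¬ 0 < r} = Set.Iic 0 := by ext r; simp
  rw [e]; exact h0

end Frechet

/-- Laws of `(c + ρ) v`, `ρ` with a Fréchet law and `c > 0`. -/
def ShiftedFrechetRay {d : ℕ} (Q : Measure (Fin d → ℝ)) : Prop :=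
  ∃ (v : Fin d → ℝ) (c α : ℝ) (R : Measure ℝ), (∀ i, 0 ≤ v i) ∧ v ≠ 0 ∧ 0 < c ∧ 0 < α ∧ IsProbabilityMeasure R ∧
    IsFrechet α R ∧ Q = R.map (fun r => (c + r) • v)

/-! ### Transfer to the law of a single vector -/

section Transfer
variable {d : ℕ} [Nonempty (Fin d)] {P : Measure (Fin d → ℝ)} [IsProbabilityMeasure P] {n : ℕ} [Nonempty (Fin n)]

omit [Nonempty (Fin d)] in
theorem ae_of_mx {C : Set (Fin d → ℝ)} (hC : IsClosed C)
    (h : ∀ᵐ xs ∂(Measure.pi (fun _ : Fin n => P)), red (mx xs) ∈ C) : ∀ᵐ x ∂P, red x ∈ C := by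
  have hred := measurable_red (d := d)
  have hQ : (P.map red) Cᶜ = 0 := by
    apply measure_null_of_locally_null
    intro z hz
    obtain ⟨e, he, hball⟩ := Metric.isOpen_iff.mp hC.isOpen_compl z hz
    refine ⟨Metric.ball z e, mem_nhdsWithin_of_mem_nhds (Metric.ball_mem_nhds z he), ?_⟩
    rw [Measure.map_apply hred Metric.isOpen_ball.measurableSet]
    have h1 : Measure.pi (fun _ : Fin n => P) (Set.pi Set.univ (fun _ : Fin n => red ⁻¹' Metric.ball z e)) = 0 := by
      rw [ae_iff] at h
      apply measure_mono_null _ h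
      intro xs hxs
      rw [Set.mem_ofPred_eq]
      apply hball
      rw [red_mx, Metric.mem_ball, dist_pi_lt_iff he]
      intro i
      obtain ⟨j, hj⟩ := exists_mx_eq (fun j => red (xs j)) i
      rw [hj]
      have h2 : red (xs j) ∈ Metric.ball z e := hxs j (Set.mem_univ j)
      rw [Metric.mem_ball, dist_pi_lt_iff he] at h2
      exact h2 i
    rw [Measure.pi_pi, Finset.prod_const] at h1
    exact eq_zero_of_pow_eq_zero h1
  rw [Measure.map_apply hred hC.isOpen_compl.measurableSet] at hQ
  rw [ae_iff]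
  exact hQ

end Transfer

end Pool.Agent.Helper95.Hull
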