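import Mathlib
import Pool.Agent.Lib.Helper95.Hull.Rays
open MeasureTheory ProbabilityTheory Finset Filter Topology Set
open scoped Pointwise NNReal ENNReal

namespace Pool.Agent.Helper95.Hull

section Forward
variable {d : ℕ} [Nonempty (Fin d)] {P : Measure (Fin d → ℝ)} [IsProbabilityMeasure P]

theorem measurable_supu (u : Fin d → ℝ) : Measurable (fun x : Fin d → ℝ => sup x u) :=
  (continuous_sup.comp (continuous_id.prodMk continuous_const)).measurable

/-- Laws concentrated on a ray in the positive orthant. -/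
theorem ray_non {x₀ : Fin d → ℝ} (hx₀ : Non x₀) {i : Fin d} (hi : 0 < x₀ i)
    (hray : ∀ᵐ x ∂P, ∃ t : ℝ, 0 ≤ t ∧ red x = t • x₀) {a k : ℕ → ℝ} (ha : ∀ n, 1 ≤ n → 0 < a n)
    (h : ∀ n, 1 ≤ n → ∀ r, cdf (P.map (fun x => sup x (Pi.single i 1))) (r / a n) =
      cdf (P.map (fun x => sup x (Pi.single i 1))) (r - k n) ^ n) :
    MaxStable (P.map red) ∨ ShiftedFrechetRay (P.map red) := by
  have hone : Non (Pi.single i 1 : Fin d → ℝ) := non_single (by norm_num)
  have hτ := measurable_supu (Pi.single i 1 : Fin d → ℝ)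
  set τ : (Fin d → ℝ) → ℝ := fun x => sup x (Pi.single i 1) with hτdef
  set R : Measure ℝ := P.map τ with hR
  have hRp : IsProbabilityMeasure R := Measure.isProbabilityMeasure_map hτ.aemeasurable
  have hval : ∀ᵐ x ∂P, 0 ≤ τ x ∧ red x = (τ x / x₀ i) • x₀ := by
    filter_upwards [hray] with x hx
    obtain ⟨t, ht, hxt⟩ := hx
    have h1 : τ x = t * x₀ i := by
      show sup x (Pi.single i 1) = _
      rw [← sup_red x hone, hxt, sup_smul ht, sup_single_non hx₀ i (by norm_num), mul_one]
    refine ⟨by rw [h1]; exact mul_nonneg ht hi.le, ?_⟩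
    rw [h1, hxt]
    congr 1
    field_simp
  have hlin : Measurable (fun s : ℝ => (s / x₀ i) • x₀) := by
    apply measurable_pi_lambda
    intro l
    simp only [Pi.smul_apply, smul_eq_mul]
    fun_prop
  have hQ : P.map red = R.map (fun s => (s / x₀ i) • x₀) := by
    rw [hR, Measure.map_map hlin hτ]
    apply Measure.map_congr
    filter_upwards [hval] with x hx
    exact hx.2
  have hneg : ∀ r, r < 0 → cdf R r = 0 := by
    intro r hr
    rw [cdf_eq_real, Measure.real, hR, Measure.map_apply hτ measurableSet_Iic]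
    have : P (τ ⁻¹' Set.Iic r) = 0 := by
      have h1 : ∀ᵐ x ∂P, ¬ τ x ≤ r := by
        filter_upwards [hval] with x hx
        have := hx.1
        push Not
        linarith
      rw [ae_iff] at h1
      simp only [not_not] at h1
      exact h1
    rw [this]; simp
  rcases nonneg_law hneg ha h with ⟨m, hm⟩ | ⟨m, C, α, hm, hC, hα, _, hcdf⟩
  · left
    rw [hQ, hm, Measure.map_dirac' hlin]
    exact maxStable_dirac _
  · -- standardise
    set θ : ℝ := C ^ (1 / α) with hθ
    have hθ0 : 0 < θ := Real.rpow_pos_of_pos hC _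
    have hθα : C * θ ^ (-α) = 1 := by
      rw [hθ, ← Real.rpow_mul hC.le]
      have e : 1 / α * -α = -1 := by field_simp
      rw [e, Real.rpow_neg_one]
      field_simp
    have haff : Measurable (fun s : ℝ => (s - m) / θ) := by fun_prop
    set R' : Measure ℝ := R.map (fun s => (s - m) / θ) with hR'
    have hRp' : IsProbabilityMeasure R' := Measure.isProbabilityMeasure_map haff.aemeasurable
    have hF : IsFrechet α R' := by
      rw [isFrechet_iff]
      intro r
      have h1 : cdf R' r = cdf R (m + θ * r) := by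
        rw [cdf_eq_real, cdf_eq_real, Measure.real, Measure.real, hR', Measure.map_apply haff measurableSet_Iic]
        congr 2
        ext s
        simp only [Set.mem_preimage, Set.mem_Iic]
        rw [div_le_iff₀ hθ0]
        constructor <;> intro h <;> linarith
      rw [h1, hcdf]
      by_cases hr : 0 < r
      · have hpos : 0 < θ * r := mul_pos hθ0 hr
        rw [if_pos (by linarith), if_pos hr]
        have e : m + θ * r - m = θ * r := by ring
        rw [e, Real.mul_rpow hθ0.le hr.le, ← mul_assoc, hθα, one_mul]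
      · rw [if_neg hr, if_neg]
        push Not at hr ⊢
        nlinarith
    set v : Fin d → ℝ := (θ / x₀ i) • x₀ with hv
    have hv0 : Non v := fun l => mul_nonneg (div_pos hθ0 hi).le (hx₀ l)
    have hvne : v ≠ 0 := by
      intro h0
      have := congrFun h0 i
      rw [hv, Pi.smul_apply, smul_eq_mul, Pi.zero_apply, div_mul_cancel₀ _ hi.ne'] at this
      linarith
    have hQ' : P.map red = R'.map (fun r => (m / θ + r) • v) := by
      rw [hQ, hR', Measure.map_map (measurable_ray v (m / θ)) haff]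
      congr 1
      funext s
      simp only [Function.comp_apply, hv, smul_smul]
      congr 1
      field_simp
      ring
    rcases hm.eq_or_lt with hm0 | hm0
    · left
      intro n hn
      have : Nonempty (Fin n) := ⟨⟨0, hn⟩⟩
      have hn0 : (0 : ℝ) < n := by exact_mod_cast hn
      refine ⟨(n : ℝ) ^ (1 / α), Real.rpow_pos_of_pos hn0 _, ?_⟩
      have h1 := ray_lemma hv0 (m / θ) (frechet_max hα hF hn)
      rw [← hQ'] at h1
      rw [h1, ← hm0]
      simp
    · right
      exact ⟨v, m / θ, α, R', hv0, hvne, div_pos hm0 hθ0, hα, hRp', hF, hQ'⟩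

/-- Laws concentrated on a ray in the negative orthant. -/
theorem ray_neg {x₀ : Fin d → ℝ} (hx₀ : Neg x₀)
    (hray : ∀ᵐ x ∂P, ∃ t : ℝ, 0 ≤ t ∧ red x = t • x₀) {a k : ℕ → ℝ} (ha : ∀ n, 1 ≤ n → 0 < a n)
    (hk : ∀ n, 1 ≤ n → k n ≤ 0)
    (h : ∀ n, 1 ≤ n → ∀ r, cdf (P.map (fun x => sup x (fun l => -1 / x₀ l))) (r / a n) =
      cdf (P.map (fun x => sup x (fun l => -1 / x₀ l))) (r - k n) ^ n) :
    MaxStable (P.map red) := by
  have hu : Non (fun l => -1 / x₀ l) := fun l => (div_pos_of_neg_of_neg (by norm_num) (hx₀ l)).le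
  have hτ := measurable_supu (fun l => -1 / x₀ l)
  set τ : (Fin d → ℝ) → ℝ := fun x => sup x (fun l => -1 / x₀ l) with hτdef
  set R : Measure ℝ := P.map τ with hR
  have hRp : IsProbabilityMeasure R := Measure.isProbabilityMeasure_map hτ.aemeasurable
  have hval : ∀ᵐ x ∂P, τ x ≤ 0 ∧ red x = (0 + τ x) • (-x₀) := by
    filter_upwards [hray] with x hx
    obtain ⟨t, ht, hxt⟩ := hx
    have h1 : τ x = -t := by
      show sup x (fun l => -1 / x₀ l) = _
      rw [← sup_red x hu, hxt, sup_smul ht]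
      obtain ⟨i₀⟩ := ‹Nonempty (Fin d)›
      have h2 : sup x₀ (fun l => -1 / x₀ l) = -1 := by
        apply sup_eq_of i₀
        · have := (hx₀ i₀).ne
          field_simp
        · intro l
          have := (hx₀ l).ne
          apply le_of_eq
          field_simp
      rw [h2]; ring
    refine ⟨by rw [h1]; linarith, ?_⟩
    rw [h1, hxt, zero_add, smul_neg, neg_smul, neg_neg]
  have hlin := measurable_ray (-x₀) 0
  have hQ : P.map red = R.map (fun s => (0 + s) • (-x₀)) := by
    rw [hR, Measure.map_map hlin hτ]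
    apply Measure.map_congr
    filter_upwards [hval] with x hx
    exact hx.2
  have hpos : ∀ r, 0 ≤ r → cdf R r = 1 := by
    intro r hr
    rw [cdf_eq_real, Measure.real, hR, Measure.map_apply hτ measurableSet_Iic]
    have : P (τ ⁻¹' Set.Iic r) = 1 := by
      rw [← mem_ae_iff_prob_eq_one₀ (hτ measurableSet_Iic).nullMeasurableSet]
      filter_upwards [hval] with x hx
      exact hx.1.trans hr
    rw [this]; simp
  rcases nonpos_law hpos ha hk h with ⟨m, hm⟩ | hzero
  · rw [hQ, hm, Measure.map_dirac' hlin]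
    exact maxStable_dirac _
  · intro n hn
    have : Nonempty (Fin n) := ⟨⟨0, hn⟩⟩
    refine ⟨a n, ha n hn, ?_⟩
    have hw : Non (-x₀) := fun l => by
      show 0 ≤ -x₀ l
      linarith [hx₀ l]
    have hml : R.map (fun r => a n * r) = (Measure.pi (fun _ : Fin n => R)).map (fun rs => ⨆ j, rs j) := by
      apply max_law (ha n hn)
      intro r
      rw [h n hn r, hzero n hn, sub_zero]
    have h1 := ray_lemma hw 0 hml
    rw [← hQ] at h1
    rw [h1]
    simp

/-- A convex-stable law is strictly max-stable or a shifted Fréchet law on a ray, after reduction. -/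
theorem forward (hd : ∀ j : Fin d, ∃ l, l ≠ j) (hst : ConvexStable P (hullSet (d := d))) :
    MaxStable (P.map red) ∨ ShiftedFrechetRay (P.map red) := by
  choose a ha K hKne hKc hKconv hlaw using hst
  have hNe : ∀ n : ℕ, 1 ≤ n → Nonempty (Fin n) := fun n hn => ⟨⟨0, hn⟩⟩
  by_cases hall : ∀ n (hn : 1 ≤ n), ∀ u, Non u → supK (K n hn) u = 0
  · left
    intro n hn
    have := hNe n hn
    exact ⟨a n hn, ha n hn, maxStable_step (ha n hn) (hKc n hn) (hKne n hn) (hlaw n hn) (hall n hn)⟩
  push Not at hall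
  obtain ⟨n₀, hn₀, u₀, hu₀, hne₀⟩ := hall
  have := hNe n₀ hn₀
  have hsub : Sub (supK (K n₀ hn₀)) := fun u w _ _ => supK_add (hKc n₀ hn₀) (hKne n₀ hn₀) u w
  set D : Set (Fin d → ℝ) := {x | (Non x ∨ Neg x) ∧ ∃ y, (Non y ∨ Neg y) ∧ Pair (supK (K n₀ hn₀)) x y} with hD
  have hae : ∀ᵐ xs ∂(Measure.pi (fun _ : Fin n₀ => P)), red (mx xs) ∈ D := by
    filter_upwards [ae_pair (ha n₀ hn₀) (hKc n₀ hn₀) (hKne n₀ hn₀) (hlaw n₀ hn₀)] with xs hxs
    exact ⟨red_type _, hxs⟩
  -- the ray
  obtain ⟨x₀, hx₀ne, hx₀t, hx₀ray⟩ : ∃ x₀ : Fin d → ℝ, x₀ ≠ 0 ∧ (Non x₀ ∨ Neg x₀) ∧ ∀ x ∈ D, ∃ t : ℝ, 0 ≤ t ∧ x = t • x₀ := by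
    by_cases hex : ∃ x₀ ∈ D, x₀ ≠ 0
    · obtain ⟨x₀, ⟨hx₀, y₀, hy₀, hp₀⟩, hne⟩ := hex
      refine ⟨x₀, hne, hx₀, ?_⟩
      rintro x ⟨hx, y, hy, hp⟩
      rcases key hsub hp₀ hx₀ hy₀ hp hx hy hd with h1 | h1 | h1
      · exact absurd (h1 u₀ hu₀) hne₀
      · exact absurd h1 hne
      · exact h1
    · push Not at hex
      refine ⟨fun _ => 1, ?_, Or.inl (fun _ => by norm_num), ?_⟩
      · intro h0
        obtain ⟨i⟩ := ‹Nonempty (Fin d)›
        have := congrFun h0 i
        simp at this
      · intro x hx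
        exact ⟨0, le_rfl, by rw [hex x hx, zero_smul]⟩
  obtain ⟨i, hi⟩ : ∃ i, x₀ i ≠ 0 := by
    by_contra hcon
    push Not at hcon
    exact hx₀ne (funext hcon)
  have hclosed : IsClosed {x : Fin d → ℝ | ∃ t : ℝ, 0 ≤ t ∧ x = t • x₀} := by
    have e : {x : Fin d → ℝ | ∃ t : ℝ, 0 ≤ t ∧ x = t • x₀} = {x | 0 ≤ x i / x₀ i} ∩ {x | x = (x i / x₀ i) • x₀} := by
      ext x
      constructor
      · rintro ⟨t, ht, rfl⟩
        have h1 : (t • x₀) i / x₀ i = t := by
          rw [Pi.smul_apply, smul_eq_mul]; field_simp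
        refine ⟨?_, ?_⟩
        · show 0 ≤ (t • x₀) i / x₀ i
          rw [h1]; exact ht
        · show t • x₀ = ((t • x₀) i / x₀ i) • x₀
          rw [h1]
      · rintro ⟨h1, h2⟩
        exact ⟨_, h1, h2⟩
    rw [e]
    apply IsClosed.inter
    · exact isClosed_le continuous_const (by fun_prop)
    · exact isClosed_eq continuous_id (by fun_prop)
  have hray : ∀ᵐ x ∂P, ∃ t : ℝ, 0 ≤ t ∧ red x = t • x₀ := by
    have h1 : ∀ᵐ xs ∂(Measure.pi (fun _ : Fin n₀ => P)), red (mx xs) ∈ {x : Fin d → ℝ | ∃ t : ℝ, 0 ≤ t ∧ x = t • x₀} := by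
      filter_upwards [hae] with xs hxs
      exact hx₀ray _ hxs
    exact ae_of_mx hclosed h1
  -- total versions of the sequences
  set a' : ℕ → ℝ := fun n => if hn : 1 ≤ n then a n hn else 1 with ha'
  have ha'pos : ∀ n, 1 ≤ n → 0 < a' n := by
    intro n hn
    rw [ha']
    simp only [dif_pos hn]
    exact ha n hn
  rcases hx₀t with hx₀t | hx₀t
  · have hi' : 0 < x₀ i := lt_of_le_of_ne (hx₀t i) (Ne.symm hi)
    have hone : Non (Pi.single i 1 : Fin d → ℝ) := non_single (by norm_num)
    apply ray_non hx₀t hi' hray (a := a') (k := fun n => if hn : 1 ≤ n then supK (K n hn) (Pi.single i 1) else 0) ha'pos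
    intro n hn r
    have := hNe n hn
    simp only [ha', dif_pos hn]
    exact eqLaw_cdf (ha n hn) (hKc n hn) (hKne n hn) (hlaw n hn) hone r
  · left
    set us : Fin d → ℝ := fun l => -1 / x₀ l with hus
    have hu : Non us := fun l => (div_pos_of_neg_of_neg (by norm_num) (hx₀t l)).le
    apply ray_neg hx₀t hray (a := a') (k := fun n => if hn : 1 ≤ n then supK (K n hn) us else 0) ha'pos
    · intro n hn
      have := hNe n hn
      simp only [dif_pos hn]
      refine (supK_le_sum (hKc n hn) (hKne n hn) us).trans ?_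
      apply Finset.sum_nonpos
      intro l _
      -- the shift vanishes on the axes
      have hul : Non (Pi.single l (us l) : Fin d → ℝ) := non_single (hu l)
      have hcdf := eqLaw_cdf (ha n hn) (hKc n hn) (hKne n hn) (hlaw n hn) hul 0
      obtain ⟨l', hl'⟩ := hd l
      have hzero : ∀ᵐ x ∂P, sup x (Pi.single l (us l)) = 0 := by
        filter_upwards [hray] with x hx
        obtain ⟨t, ht, hxt⟩ := hx
        rw [← sup_red x hul, hxt, sup_smul ht, sup_single_neg hx₀t hl' (hu l), mul_zero]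
      have hdir : P.map (fun x => sup x (Pi.single l (us l))) = Measure.dirac 0 := by
        rw [Measure.map_congr hzero, Measure.map_const, measure_univ, one_smul]
      rw [hdir] at hcdf
      have hd0 : cdf (Measure.dirac (0 : ℝ)) (0 / a n hn) = 1 := by
        rw [zero_div, cdf_eq_real, Measure.real, Measure.dirac_apply' _ measurableSet_Iic]
        simp
      rw [hd0] at hcdf
      by_contra hcon
      push Not at hcon
      have hd1 : cdf (Measure.dirac (0 : ℝ)) (0 - supK (K n hn) (Pi.single l (us l))) = 0 := by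
        rw [cdf_eq_real, Measure.real, Measure.dirac_apply' _ measurableSet_Iic]
        simp [hcon]
      rw [hd1, zero_pow (by omega)] at hcdf
      exact absurd hcdf (by norm_num)
    · intro n hn r
      have := hNe n hn
      simp only [ha', dif_pos hn]
      exact eqLaw_cdf (ha n hn) (hKc n hn) (hKne n hn) (hlaw n hn) hu r

end Forward

end Pool.Agent.Helper95.Hull
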