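import Mathlib
import Pool.Agent.Lib.Helper95.Hull.Forward
open MeasureTheory ProbabilityTheory Finset Filter Topology Set
open scoped Pointwise NNReal ENNReal

namespace Pool.Agent.Helper95.Hull

section Backward
variable {d : ℕ}

theorem measurable_add_right (K : Set (Fin d → ℝ)) :
    @Measurable _ _ (effros (Fin d → ℝ)) (effros (Fin d → ℝ)) (fun A => A + K) := by
  apply @measurable_generateFrom _ _ (effros (Fin d → ℝ))
  rintro S ⟨G, hG, rfl⟩
  apply MeasurableSpace.measurableSet_generateFrom
  refine ⟨G - K, hG.sub_right, ?_⟩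
  ext A
  simp only [Set.mem_preimage, Set.mem_ofPred_eq]
  constructor
  · rintro ⟨z, ⟨p, hp, q, hq, rfl⟩, hz⟩
    refine ⟨p, hp, p + q, hz, q, hq, ?_⟩
    show p + q - q = p
    abel
  · rintro ⟨p, hp, g, hg, q, hq, he⟩
    refine ⟨p + q, Set.add_mem_add hp hq, ?_⟩
    have e : g - q = p := he
    have : p + q = g := by rw [← e]; abel
    rw [this]; exact hg

theorem measurableSet_hull {S : Set (Set (Fin d → ℝ))} (hS : MeasurableSet[effros (Fin d → ℝ)] S) :
    MeasurableSet {x : Fin d → ℝ | hullSet x ∈ S} := by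
  have := measurable_hullSet (d := d) hS
  exact this

theorem measurableSet_hull_add (K : Set (Fin d → ℝ)) {S : Set (Set (Fin d → ℝ))}
    (hS : MeasurableSet[effros (Fin d → ℝ)] S) : MeasurableSet {x : Fin d → ℝ | hullSet x + K ∈ S} := by
  have h1 : MeasurableSet[effros (Fin d → ℝ)] ((fun A => A + K) ⁻¹' S) := measurable_add_right K hS
  exact measurable_hullSet (d := d) h1

variable {P : Measure (Fin d → ℝ)} [IsProbabilityMeasure P]

omit [IsProbabilityMeasure P] in
theorem left_law {a : ℝ} (ha : 0 < a) {S : Set (Set (Fin d → ℝ))} (hS : MeasurableSet[effros (Fin d → ℝ)] S) :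
    P ((fun x => a • hullSet x) ⁻¹' S) = (P.map red).map (fun x => a • x) {z | hullSet z ∈ S} := by
  have hsm : Measurable (fun x : Fin d → ℝ => a • x) := measurable_const_smul a
  rw [Measure.map_apply hsm (measurableSet_hull hS), Measure.map_apply measurable_red (hsm (measurableSet_hull hS))]
  congr 1
  ext x
  show a • hullSet x ∈ S ↔ hullSet (a • red x) ∈ S
  rw [smul_hullSet ha, ← red_smul ha, hullSet_red]

theorem right_law {n : ℕ} [Nonempty (Fin n)] (K : Set (Fin d → ℝ)) {S : Set (Set (Fin d → ℝ))}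
    (hS : MeasurableSet[effros (Fin d → ℝ)] S) :
    Measure.pi (fun _ : Fin n => P) ((fun xs => closure (convexHull ℝ (⋃ j, hullSet (xs j))) + K) ⁻¹' S) =
      Measure.pi (fun _ : Fin n => P.map red) {zs | hullSet (mx zs) + K ∈ S} := by
  have hred := measurable_red (d := d)
  have hpr : IsProbabilityMeasure (P.map red) := Measure.isProbabilityMeasure_map hred.aemeasurable
  have hpi : Measure.pi (fun _ : Fin n => P.map red) = (Measure.pi (fun _ : Fin n => P)).map (fun xs j => red (xs j)) :=
    (Measure.pi_map_pi (fun _ => hred.aemeasurable)).symm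
  have hredn : Measurable (fun (xs : Fin n → Fin d → ℝ) j => red (xs j)) :=
    measurable_pi_lambda _ (fun j => hred.comp (measurable_pi_apply j))
  have hset : MeasurableSet {zs : Fin n → Fin d → ℝ | hullSet (mx zs) + K ∈ S} :=
    measurable_mx (measurableSet_hull_add K hS)
  rw [hpi, Measure.map_apply hredn hset]
  congr 1
  ext xs
  show closure (convexHull ℝ (⋃ j, hullSet (xs j))) + K ∈ S ↔ hullSet (mx (fun j => red (xs j))) + K ∈ S
  rw [hull_union, ← red_mx, hullSet_red]

theorem right_law' {n : ℕ} [Nonempty (Fin n)] {S : Set (Set (Fin d → ℝ))}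
    (hS : MeasurableSet[effros (Fin d → ℝ)] S) :
    Measure.pi (fun _ : Fin n => P) ((fun xs => closure (convexHull ℝ (⋃ j, hullSet (xs j)))) ⁻¹' S) =
      (Measure.pi (fun _ : Fin n => P.map red)).map mx {z | hullSet z ∈ S} := by
  rw [Measure.map_apply measurable_mx (measurableSet_hull hS)]
  have h := right_law (P := P) (n := n) ({0} : Set (Fin d → ℝ)) hS
  simpa using h

theorem strict_of_maxStable (h : MaxStable (P.map red)) : StrictlyConvexStable P (hullSet (d := d)) := by
  intro n hn
  have : Nonempty (Fin n) := ⟨⟨0, hn⟩⟩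
  obtain ⟨a, ha, hQ⟩ := h n hn
  refine ⟨a, ha, fun S hS => ?_⟩
  rw [left_law ha hS, right_law' hS, hQ]

omit [IsProbabilityMeasure P] in
theorem convexStable_of_strict (h : StrictlyConvexStable P (hullSet (d := d))) : ConvexStable P (hullSet (d := d)) := by
  intro n hn
  obtain ⟨a, ha, hQ⟩ := h n hn
  refine ⟨a, ha, {0}, Set.singleton_nonempty 0, isCompact_singleton, convex_singleton 0, ?_⟩
  simpa using hQ

theorem maxStable_of_strict [Nonempty (Fin d)] (h : StrictlyConvexStable P (hullSet (d := d))) :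
    MaxStable (P.map red) := by
  intro n hn
  have : Nonempty (Fin n) := ⟨⟨0, hn⟩⟩
  obtain ⟨a, ha, hQ⟩ := h n hn
  refine ⟨a, ha, maxStable_step ha (K := {0}) isCompact_singleton (Set.singleton_nonempty 0) (by simpa using hQ) ?_⟩
  intro u _
  unfold supK
  rw [Set.image_singleton, csSup_singleton]
  simp

theorem convexStable_of_shifted [Nonempty (Fin d)] (h : ShiftedFrechetRay (P.map red)) :
    ConvexStable P (hullSet (d := d)) := by
  obtain ⟨v, c, α, R, hv, hvne, hc, hα, hRp, hF, hQ⟩ := h
  intro n hn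
  have : Nonempty (Fin n) := ⟨⟨0, hn⟩⟩
  have hn1 : (1 : ℝ) ≤ n := by exact_mod_cast hn
  set a : ℝ := (n : ℝ) ^ (1 / α) with ha
  have ha1 : 1 ≤ a := Real.one_le_rpow hn1 (by positivity)
  have ha0 : 0 < a := by linarith
  set l : ℝ := (a - 1) * c with hl
  have hl0 : 0 ≤ l := mul_nonneg (by linarith) hc.le
  refine ⟨a, ha0, l • simplexOf v, (simplexOf_nonempty v).smul_set, (isCompact_simplexOf v).smul l,
    (convex_simplexOf v).smul l, fun S hS => ?_⟩
  rw [left_law ha0 hS, right_law _ hS, hQ, ray_lemma hv c (frechet_max hα hF hn)]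
  have hmxc : Measurable (fun zs : Fin n → Fin d → ℝ => mx zs + l • v) := measurable_mx.add_const _
  rw [Measure.map_apply hmxc (measurableSet_hull hS)]
  -- almost surely the two sets agree
  obtain ⟨i, hi⟩ : ∃ i, v i ≠ 0 := by
    by_contra hcon
    push Not at hcon
    exact hvne (funext hcon)
  have hi' : 0 < v i := lt_of_le_of_ne (hv i) (Ne.symm hi)
  have hray := measurable_ray v c
  have hpr : IsProbabilityMeasure (R.map (fun r => (c + r) • v)) := Measure.isProbabilityMeasure_map hray.aemeasurable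
  have hpmeas : MeasurableSet {z : Fin d → ℝ | 0 < z i / v i ∧ z = (z i / v i) • v} := by
    apply MeasurableSet.inter
    · exact measurableSet_lt measurable_const ((measurable_pi_apply i).div_const _)
    · apply measurableSet_eq_fun measurable_id
      apply measurable_pi_lambda
      intro q
      simp only [Pi.smul_apply, smul_eq_mul]
      fun_prop
  have hae : ∀ᵐ z ∂(R.map (fun r => (c + r) • v)), 0 < z i / v i ∧ z = (z i / v i) • v := by
    rw [ae_map_iff hray.aemeasurable hpmeas]
    filter_upwards [frechet_pos hF] with r hr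
    have h1 : ((c + r) • v) i / v i = c + r := by
      rw [Pi.smul_apply, smul_eq_mul]; field_simp
    rw [h1]
    exact ⟨by linarith, rfl⟩
  have hall : ∀ᵐ zs ∂(Measure.pi (fun _ : Fin n => R.map (fun r => (c + r) • v))),
      ∀ j, 0 < zs j i / v i ∧ zs j = (zs j i / v i) • v := by
    rw [ae_all_iff]
    intro j
    exact (Measure.quasiMeasurePreserving_eval (fun _ : Fin n => R.map (fun r => (c + r) • v)) j).ae hae
  apply measure_congr
  filter_upwards [hall] with zs hzs
  have h1 : mx zs = (⨆ j, zs j i / v i) • v := by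
    have h2 : zs = fun j => (0 + zs j i / v i) • v := by
      funext j
      rw [zero_add]; exact (hzs j).2
    conv_lhs => rw [h2]
    rw [mx_ray hv 0 (fun j => zs j i / v i), zero_add]
  have h2 : 0 < ⨆ j, zs j i / v i := by
    obtain ⟨j⟩ := ‹Nonempty (Fin n)›
    exact (hzs j).1.trans_le (le_ciSup (f := fun j => zs j i / v i) (Set.finite_range _).bddAbove j)
  have h3 : hullSet (mx zs) + l • simplexOf v = hullSet (mx zs + l • v) := by
    rw [h1, hullSet_add_simplex h2 hl0, add_smul]
  show (hullSet (mx zs + l • v) ∈ S) = (hullSet (mx zs) + l • simplexOf v ∈ S)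
  rw [h3]

end Backward

/-! ### General probability spaces -/

section General
variable {d : ℕ} {Ω : Type*} [MeasurableSpace Ω] {μ : Measure Ω} [IsProbabilityMeasure μ] {ξ : Ω → Fin d → ℝ}
  (hξ : Measurable ξ)
include hξ

omit [IsProbabilityMeasure μ] in
theorem left_transfer {a : ℝ} (ha : 0 < a) {S : Set (Set (Fin d → ℝ))} (hS : MeasurableSet[effros (Fin d → ℝ)] S) :
    μ ((fun ω => a • hullSet (ξ ω)) ⁻¹' S) = (μ.map ξ) ((fun x => a • hullSet x) ⁻¹' S) := by
  have hm : MeasurableSet ((fun x : Fin d → ℝ => a • hullSet x) ⁻¹' S) := by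
    have e : (fun x : Fin d → ℝ => a • hullSet x) ⁻¹' S = (fun x => a • x) ⁻¹' {z | hullSet z ∈ S} := by
      ext x
      show a • hullSet x ∈ S ↔ hullSet (a • x) ∈ S
      rw [smul_hullSet ha]
    rw [e]
    exact (measurable_const_smul a) (measurableSet_hull hS)
  rw [Measure.map_apply hξ hm]
  rfl

theorem right_transfer {n : ℕ} [Nonempty (Fin n)] (K : Set (Fin d → ℝ)) {S : Set (Set (Fin d → ℝ))}
    (hS : MeasurableSet[effros (Fin d → ℝ)] S) :
    Measure.pi (fun _ : Fin n => μ) ((fun ω => closure (convexHull ℝ (⋃ j, hullSet (ξ (ω j)))) + K) ⁻¹' S) =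
      Measure.pi (fun _ : Fin n => μ.map ξ) ((fun xs => closure (convexHull ℝ (⋃ j, hullSet (xs j))) + K) ⁻¹' S) := by
  have hpr : IsProbabilityMeasure (μ.map ξ) := Measure.isProbabilityMeasure_map hξ.aemeasurable
  have hpi : Measure.pi (fun _ : Fin n => μ.map ξ) = (Measure.pi (fun _ : Fin n => μ)).map (fun ω j => ξ (ω j)) :=
    (Measure.pi_map_pi (fun _ => hξ.aemeasurable)).symm
  have hξn : Measurable (fun (ω : Fin n → Ω) j => ξ (ω j)) :=
    measurable_pi_lambda _ (fun j => hξ.comp (measurable_pi_apply j))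
  have hm : MeasurableSet ((fun xs : Fin n → Fin d → ℝ => closure (convexHull ℝ (⋃ j, hullSet (xs j))) + K) ⁻¹' S) := by
    have e : (fun xs : Fin n → Fin d → ℝ => closure (convexHull ℝ (⋃ j, hullSet (xs j))) + K) ⁻¹' S =
        mx ⁻¹' {z | hullSet z + K ∈ S} := by
      ext xs
      show closure (convexHull ℝ (⋃ j, hullSet (xs j))) + K ∈ S ↔ hullSet (mx xs) + K ∈ S
      rw [hull_union]
    rw [e]
    exact measurable_mx (measurableSet_hull_add K hS)
  rw [hpi, Measure.map_apply hξn hm]
  rfl

theorem convexStable_map : ConvexStable μ (fun ω => hullSet (ξ ω)) ↔ ConvexStable (μ.map ξ) (hullSet (d := d)) := by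
  constructor
  · intro h n hn
    have : Nonempty (Fin n) := ⟨⟨0, hn⟩⟩
    obtain ⟨a, ha, K, h1, h2, h3, h4⟩ := h n hn
    refine ⟨a, ha, K, h1, h2, h3, fun S hS => ?_⟩
    rw [← left_transfer hξ ha hS, ← right_transfer hξ K hS]
    exact h4 S hS
  · intro h n hn
    have : Nonempty (Fin n) := ⟨⟨0, hn⟩⟩
    obtain ⟨a, ha, K, h1, h2, h3, h4⟩ := h n hn
    refine ⟨a, ha, K, h1, h2, h3, fun S hS => ?_⟩
    rw [left_transfer hξ ha hS, right_transfer hξ K hS]
    exact h4 S hS

theorem strict_map : StrictlyConvexStable μ (fun ω => hullSet (ξ ω)) ↔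
    StrictlyConvexStable (μ.map ξ) (hullSet (d := d)) := by
  constructor
  · intro h n hn
    have : Nonempty (Fin n) := ⟨⟨0, hn⟩⟩
    obtain ⟨a, ha, h4⟩ := h n hn
    refine ⟨a, ha, fun S hS => ?_⟩
    have h5 := right_transfer (μ := μ) hξ (n := n) ({0} : Set (Fin d → ℝ)) hS
    simp only [Set.add_singleton, add_zero, Set.image_id'] at h5
    rw [← left_transfer hξ ha hS, ← h5]
    exact h4 S hS
  · intro h n hn
    have : Nonempty (Fin n) := ⟨⟨0, hn⟩⟩
    obtain ⟨a, ha, h4⟩ := h n hn
    refine ⟨a, ha, fun S hS => ?_⟩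
    have h5 := right_transfer (μ := μ) hξ (n := n) ({0} : Set (Fin d → ℝ)) hS
    simp only [Set.add_singleton, add_zero, Set.image_id'] at h5
    rw [left_transfer hξ ha hS, h5]
    exact h4 S hS

end General

end Pool.Agent.Helper95.Hull
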