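import Mathlib
import Pool.Agent.Lib.Helper95.Hull.Backward
open MeasureTheory ProbabilityTheory Finset Filter Topology Set
open scoped Pointwise NNReal ENNReal

namespace Pool.Agent.Helper95.Hull

/-- Max-stability up to positive scaling and translation by a multiple of `(1, ..., 1)`. -/
def AffineMaxStable {d : ℕ} (Q : Measure (Fin d → ℝ)) : Prop :=
  ∀ n : ℕ, 1 ≤ n → ∃ a b : ℝ, 0 < a ∧
    Q.map (fun x => a • x) = (Measure.pi (fun _ : Fin n => Q)).map (fun xs => mx xs + fun _ => b)

/-! ### Dimension one -/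

section One

theorem sup_one_dim (x : Fin 1 → ℝ) : sup x (fun _ => 1) = x 0 := by
  apply sup_eq_of 0
  · simp
  · intro l
    rw [Subsingleton.elim l 0]
    simp

theorem hullSet_one (x : Fin 1 → ℝ) : hullSet x = {z | z 0 ≤ x 0} := by
  apply subset_antisymm
  · intro z hz
    have h1 := dot_le_sup (u := fun _ => 1) (fun _ => by norm_num) hz
    rw [sup_one_dim, Fin.sum_univ_one, mul_one] at h1
    exact h1
  · intro z hz
    have h1 : z = Pi.single 0 (z 0) := by
      ext l
      rw [Subsingleton.elim l 0, Pi.single_eq_same]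
    rw [h1]
    exact single_mem x 0 hz

theorem hullSet_one_add (x : Fin 1 → ℝ) (b : ℝ) : hullSet x + {fun _ => b} = hullSet (x + fun _ => b) := by
  rw [hullSet_one, hullSet_one]
  ext z
  rw [Set.add_singleton]
  constructor
  · rintro ⟨w, hw, rfl⟩
    exact add_le_add_left hw b
  · intro hz
    refine ⟨z - fun _ => b, ?_, by simp⟩
    have h1 : z 0 ≤ x 0 + b := hz
    show z 0 - b ≤ x 0
    linarith

variable {P : Measure (Fin 1 → ℝ)} [IsProbabilityMeasure P]

theorem one_forward (h : ConvexStable P (hullSet (d := 1))) : AffineMaxStable P := by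
  intro n hn
  have : Nonempty (Fin n) := ⟨⟨0, hn⟩⟩
  obtain ⟨a, ha, K, hKne, hKc, _, hlaw⟩ := h n hn
  have hone : Non (fun _ : Fin 1 => (1 : ℝ)) := fun _ => by norm_num
  set κ : ℝ := supK K (fun _ => 1) with hκ
  refine ⟨a, κ, ha, ?_⟩
  have he0 : Measurable (fun x : Fin 1 → ℝ => x 0) := measurable_pi_apply 0
  set R : Measure ℝ := P.map (fun x => x 0) with hR
  have hRp : IsProbabilityMeasure R := Measure.isProbabilityMeasure_map he0.aemeasurable
  have hcdf : ∀ r, cdf R (r / a) = cdf R (r - κ) ^ n := by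
    intro r
    have h1 := eqLaw_cdf ha hKc hKne hlaw hone r
    simp_rw [sup_one_dim] at h1
    exact h1
  have he : Measurable (fun (s : ℝ) (_ : Fin 1) => s) := measurable_pi_lambda _ (fun _ => measurable_id)
  have hP : P = R.map (fun s _ => s) := by
    rw [hR, Measure.map_map he he0]
    have : (fun (s : ℝ) (_ : Fin 1) => s) ∘ (fun x : Fin 1 → ℝ => x 0) = id := by
      funext x
      ext l
      rw [Subsingleton.elim l 0]
      rfl
    rw [this, Measure.map_id]
  have hadd : Measurable (fun s : ℝ => s + κ) := by fun_prop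
  have hmul : Measurable (fun s : ℝ => a * s) := measurable_const_mul a
  have hm : Measurable (fun rs : Fin n → ℝ => (⨆ j, rs j) + κ) := hadd.comp measurable_max
  -- the one-dimensional identity
  have hdim : R.map (fun s => a * s) = (Measure.pi (fun _ : Fin n => R)).map (fun rs => (⨆ j, rs j) + κ) := by
    have hp1 : IsProbabilityMeasure ((Measure.pi (fun _ : Fin n => R)).map (fun rs => (⨆ j, rs j) + κ)) :=
      Measure.isProbabilityMeasure_map hm.aemeasurable
    have hp2 : IsProbabilityMeasure ((Measure.pi (fun _ : Fin n => R)).map (fun rs => ⨆ j, rs j)) :=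
      Measure.isProbabilityMeasure_map measurable_max.aemeasurable
    have hp3 : IsProbabilityMeasure (R.map (fun s => a * s)) := Measure.isProbabilityMeasure_map hmul.aemeasurable
    apply Measure.eq_of_cdf
    ext r
    have h1 : cdf (R.map (fun s => a * s)) r = cdf R (r / a) := by
      rw [cdf_eq_real, cdf_eq_real, Measure.real, Measure.real, Measure.map_apply hmul measurableSet_Iic]
      congr 2
      ext s
      simp only [Set.mem_preimage, Set.mem_Iic]
      rw [le_div_iff₀ ha, mul_comm]
    have h2 : cdf ((Measure.pi (fun _ : Fin n => R)).map (fun rs => (⨆ j, rs j) + κ)) r = cdf R (r - κ) ^ n := by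
      rw [← cdf_max (n := n) (r - κ), cdf_eq_real, cdf_eq_real, Measure.real, Measure.real,
        Measure.map_apply hm measurableSet_Iic, Measure.map_apply measurable_max measurableSet_Iic]
      congr 2
      ext rs
      simp only [Set.mem_preimage, Set.mem_Iic]
      rw [le_sub_iff_add_le]
    rw [h1, h2, hcdf]
  have hpi : Measure.pi (fun _ : Fin n => R.map (fun (s : ℝ) (_ : Fin 1) => s)) =
      (Measure.pi (fun _ : Fin n => R)).map (fun rs j _ => rs j) := by
    have hpr : IsProbabilityMeasure (R.map (fun (s : ℝ) (_ : Fin 1) => s)) := Measure.isProbabilityMeasure_map he.aemeasurable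
    exact (Measure.pi_map_pi (fun _ => he.aemeasurable)).symm
  have hen : Measurable (fun (rs : Fin n → ℝ) (j : Fin n) (_ : Fin 1) => rs j) :=
    measurable_pi_lambda _ (fun j => he.comp (measurable_pi_apply j))
  have hsm : Measurable (fun x : Fin 1 → ℝ => a • x) := measurable_const_smul a
  have hmx : Measurable (fun xs : Fin n → Fin 1 → ℝ => mx xs + fun _ => κ) := measurable_mx.add_const _
  rw [hP, Measure.map_map hsm he, hpi, Measure.map_map hmx hen]
  have e1 : (fun x : Fin 1 → ℝ => a • x) ∘ (fun (s : ℝ) (_ : Fin 1) => s) = (fun (s : ℝ) (_ : Fin 1) => s) ∘ (fun s => a * s) := by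
    funext s l; rfl
  have e2 : (fun xs : Fin n → Fin 1 → ℝ => mx xs + fun _ => κ) ∘ (fun (rs : Fin n → ℝ) (j : Fin n) (_ : Fin 1) => rs j) =
      (fun (s : ℝ) (_ : Fin 1) => s) ∘ (fun rs => (⨆ j, rs j) + κ) := by
    funext rs l; rfl
  rw [e1, e2, ← Measure.map_map he hmul, ← Measure.map_map he hm, hdim]

omit [IsProbabilityMeasure P] in
theorem one_backward (h : AffineMaxStable P) : ConvexStable P (hullSet (d := 1)) := by
  intro n hn
  have : Nonempty (Fin n) := ⟨⟨0, hn⟩⟩
  obtain ⟨a, b, ha, hQ⟩ := h n hn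
  refine ⟨a, ha, {fun _ => b}, Set.singleton_nonempty _, isCompact_singleton, convex_singleton _, fun S hS => ?_⟩
  have hsm : Measurable (fun x : Fin 1 → ℝ => a • x) := measurable_const_smul a
  have hmx : Measurable (fun xs : Fin n → Fin 1 → ℝ => mx xs + fun _ => b) := measurable_mx.add_const _
  have h1 : P ((fun x => a • hullSet x) ⁻¹' S) = P.map (fun x => a • x) {z | hullSet z ∈ S} := by
    rw [Measure.map_apply hsm (measurableSet_hull hS)]
    congr 1
    ext x
    show a • hullSet x ∈ S ↔ hullSet (a • x) ∈ S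
    rw [smul_hullSet ha]
  have h2 : Measure.pi (fun _ : Fin n => P) ((fun xs => closure (convexHull ℝ (⋃ j, hullSet (xs j))) + {fun _ => b}) ⁻¹' S) =
      (Measure.pi (fun _ : Fin n => P)).map (fun xs => mx xs + fun _ => b) {z | hullSet z ∈ S} := by
    rw [Measure.map_apply hmx (measurableSet_hull hS)]
    congr 1
    ext xs
    show closure (convexHull ℝ (⋃ j, hullSet (xs j))) + {fun _ => b} ∈ S ↔ hullSet (mx xs + fun _ => b) ∈ S
    rw [hull_union, hullSet_one_add]
  rw [h1, h2, hQ]

end One

/-! ### The classification -/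

section Main
variable {Ω : Type*} [MeasurableSpace Ω] {μ : Measure Ω} [IsProbabilityMeasure μ]

theorem classification {d : ℕ} (hd : 2 ≤ d) {ξ : Ω → Fin d → ℝ} (hξ : Measurable ξ) :
    (ConvexStable μ (fun ω => hullSet (ξ ω)) ↔
      MaxStable (μ.map (fun ω => red (ξ ω))) ∨ ShiftedFrechetRay (μ.map (fun ω => red (ξ ω)))) ∧
    (StrictlyConvexStable μ (fun ω => hullSet (ξ ω)) ↔ MaxStable (μ.map (fun ω => red (ξ ω)))) := by
  have hne : Nonempty (Fin d) := ⟨⟨0, by omega⟩⟩
  have hd' : ∀ j : Fin d, ∃ l, l ≠ j := by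
    intro j
    by_cases hj : j = ⟨0, by omega⟩
    · refine ⟨⟨1, by omega⟩, ?_⟩
      rw [hj]
      intro h
      have := congrArg Fin.val h
      simp at this
    · exact ⟨⟨0, by omega⟩, Ne.symm hj⟩
  have hpr : IsProbabilityMeasure (μ.map ξ) := Measure.isProbabilityMeasure_map hξ.aemeasurable
  have hmap : μ.map (fun ω => red (ξ ω)) = (μ.map ξ).map red := (Measure.map_map measurable_red hξ).symm
  rw [hmap, convexStable_map hξ, strict_map hξ]
  refine ⟨⟨forward hd', ?_⟩, ⟨maxStable_of_strict, strict_of_maxStable⟩⟩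
  rintro (h | h)
  · exact convexStable_of_strict (strict_of_maxStable h)
  · exact convexStable_of_shifted h

theorem classification_one {ξ : Ω → Fin 1 → ℝ} (hξ : Measurable ξ) :
    ConvexStable μ (fun ω => hullSet (ξ ω)) ↔ AffineMaxStable (μ.map ξ) := by
  have hpr : IsProbabilityMeasure (μ.map ξ) := Measure.isProbabilityMeasure_map hξ.aemeasurable
  rw [convexStable_map hξ]
  exact ⟨one_forward, one_backward⟩

end Main

end Pool.Agent.Helper95.Hull
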